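import Pool.Agent.Y940.CT.Iter

set_option autoImplicit false

/-! # Balanced supersaturation and one container step (helper45) -/

namespace Pool.Agent.L5helper45.CT

open Finset
open Pool.Agent.Y940.CT (Spread Cov deg Ind containers cost)

/-- A `k`-uniform hypergraph with at most `c` edges through two given points. -/
structure HG (E : Finset (Finset ℕ)) (k : ℕ) (c : ℝ) : Prop where
  unif : ∀ e ∈ E, e.card = k
  pair : ∀ u v, u ≠ v → ((E.filter (fun e => u ∈ e ∧ v ∈ e)).card : ℝ) ≤ c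

/-- a maximal subfamily with bounded degrees -/
theorem balanced (E : Finset (Finset ℕ)) {k : ℕ} (hE : ∀ e ∈ E, e.card = k) (hk : 1 ≤ k)
    (U : Finset ℕ) {D : ℝ} (hD : 1 ≤ D)
    (h : ∀ B ⊆ U, (U.card : ℝ) / 2 ≤ B.card →
      D * U.card < ((E.filter (fun e => e ⊆ B)).card : ℝ)) :
    ∃ F ⊆ E, (∀ e ∈ F, e ⊆ U) ∧ D * U.card ≤ F.card ∧
      ∀ v, ((F.filter (fun e => v ∈ e)).card : ℝ) ≤ (2 * k + 1) * D := by
  classical
  set Δ : ℕ := ⌈2 * k * D⌉₊ with hΔ
  have hk1 : (1 : ℝ) ≤ k := by exact_mod_cast hk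
  have hΔ1 : 2 * k * D ≤ Δ := Nat.le_ceil _
  have hΔ2 : (Δ : ℝ) ≤ (2 * k + 1) * D := by
    have := Nat.ceil_lt_add_one (show 0 ≤ 2 * k * D by positivity)
    nlinarith
  set 𝒮 : Finset (Finset (Finset ℕ)) := (E.filter (fun e => e ⊆ U)).powerset.filter
    (fun F => ∀ v ∈ U, (F.filter (fun e => v ∈ e)).card ≤ Δ) with h𝒮
  obtain ⟨F, hF, hmax⟩ := exists_max_image 𝒮 card ⟨∅, by simp [h𝒮]⟩
  rw [h𝒮, mem_filter, mem_powerset] at hF
  obtain ⟨hF1, hF2⟩ := hF
  have hFU : ∀ e ∈ F, e ⊆ U := fun e he => (mem_filter.1 (hF1 he)).2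
  have hFE : F ⊆ E := fun e he => (mem_filter.1 (hF1 he)).1
  refine ⟨F, hFE, hFU, ?_, ?_⟩
  · by_contra hlt
    push Not at hlt
    set S : Finset ℕ := U.filter (fun v => (F.filter (fun e => v ∈ e)).card = Δ) with hS
    have h1 : (S.card : ℝ) * Δ ≤ k * F.card := by
      have e1 : ∑ v ∈ U, (F.filter (fun e => v ∈ e)).card = ∑ e ∈ F, e.card := by
        simp only [card_filter]
        rw [sum_comm]
        refine sum_congr rfl fun e he => ?_
        rw [← card_filter, filter_mem_eq_inter, inter_eq_right.2 (hFU e he)]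
      have e2 : ∑ v ∈ S, (F.filter (fun e => v ∈ e)).card ≤
          ∑ v ∈ U, (F.filter (fun e => v ∈ e)).card :=
        sum_le_sum_of_subset (filter_subset _ _)
      have e3 : ∑ v ∈ S, (F.filter (fun e => v ∈ e)).card = S.card * Δ := by
        rw [← smul_eq_mul, ← sum_const]
        exact sum_congr rfl fun v hv => (mem_filter.1 hv).2
      have e4 : ∑ e ∈ F, e.card = F.card * k := by
        rw [← smul_eq_mul, ← sum_const]
        exact sum_congr rfl fun e he => hE e (hFE he)
      have e5 : S.card * Δ ≤ k * F.card := by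
        rw [← e3, mul_comm k, ← e4, ← e1]
        exact e2
      exact_mod_cast e5
    have h2 : (S.card : ℝ) ≤ U.card / 2 := by
      have e1 : (S.card : ℝ) * (2 * k * D) ≤ k * (D * U.card) :=
        (mul_le_mul_of_nonneg_left hΔ1 (Nat.cast_nonneg _)).trans
          (h1.trans (mul_le_mul_of_nonneg_left hlt.le (by linarith)))
      have e2 : 0 < k * D := by positivity
      have e3 : (S.card : ℝ) * 2 * (k * D) ≤ U.card * (k * D) := by
        calc (S.card : ℝ) * 2 * (k * D) = S.card * (2 * k * D) := by ring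
          _ ≤ _ := e1
          _ = _ := by ring
      have e4 := le_of_mul_le_mul_right e3 e2
      linarith
    have h3 : (U.card : ℝ) / 2 ≤ ((U \ S).card : ℝ) := by
      have e1 : (U \ S).card + S.card = U.card := card_sdiff_add_card_eq_card (filter_subset _ _)
      have e2 : ((U \ S).card : ℝ) + S.card = U.card := by exact_mod_cast e1
      linarith
    have h4 := h (U \ S) sdiff_subset h3
    have h5 : (F.card : ℝ) < ((E.filter (fun e => e ⊆ U \ S)).card : ℝ) := hlt.trans h4
    have h6 : F.card < (E.filter (fun e => e ⊆ U \ S)).card := by exact_mod_cast h5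
    obtain ⟨e, he1, he2⟩ := exists_mem_notMem_of_card_lt_card h6
    rw [mem_filter] at he1
    have h7 : insert e F ∈ 𝒮 := by
      rw [h𝒮, mem_filter, mem_powerset]
      constructor
      · intro e' he'
        rcases mem_insert.1 he' with rfl | h8
        · exact mem_filter.2 ⟨he1.1, he1.2.trans sdiff_subset⟩
        · exact hF1 h8
      · intro v hv
        by_cases hve : v ∈ e
        · have h8 : v ∉ S := (mem_sdiff.1 (he1.2 hve)).2
          have h9 : (F.filter (fun e => v ∈ e)).card ≠ Δ := fun h10 => h8 (mem_filter.2 ⟨hv, h10⟩)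
          have h10 := lt_of_le_of_ne (hF2 v hv) h9
          rw [filter_insert, if_pos hve]
          exact (card_insert_le _ _).trans (by omega)
        · rw [filter_insert, if_neg hve]
          exact hF2 v hv
    have h8 := hmax _ h7
    rw [card_insert_of_notMem he2] at h8
    omega
  · intro v
    refine le_trans ?_ hΔ2
    by_cases hv : v ∈ U
    · exact_mod_cast hF2 v hv
    · have : F.filter (fun e => v ∈ e) = ∅ := by
        rw [filter_eq_empty_iff]
        intro e he hve
        exact hv (hFU e he hve)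
      rw [this]
      simp

/-- the indicator weight -/
theorem deg_ind {U : Finset ℕ} {F : Finset (Finset ℕ)} (hF : ∀ e ∈ F, e ⊆ U) (J : Finset ℕ) :
    deg U (fun e => if e ∈ F then (1 : ℝ) else 0) J = ((F.filter (fun e => J ⊆ e)).card : ℝ) := by
  classical
  unfold deg
  rw [card_filter, Nat.cast_sum]
  have h1 : ∑ e ∈ U.powerset, (if J ⊆ e then (if e ∈ F then (1 : ℝ) else 0) else 0) =
      ∑ e ∈ F, (if J ⊆ e then (1 : ℝ) else 0) := by
    have h2 : F ⊆ U.powerset := fun e he => mem_powerset.2 (hF e he)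
    rw [← sum_subset h2]
    · refine sum_congr rfl fun e he => ?_
      rw [if_pos he]
    · intro e _ he
      rw [if_neg he]
      split_ifs <;> rfl
  rw [h1]
  refine sum_congr rfl fun e _ => ?_
  split_ifs <;> simp

theorem spread_of {E F : Finset (Finset ℕ)} {k : ℕ} {c : ℝ} (hE : HG E k c) (hFE : F ⊆ E)
    {U : Finset ℕ} (hFU : ∀ e ∈ F, e ⊆ U) {D K τ : ℝ} (hD : 0 < D) (hτ : 0 < τ) (hτ1 : τ ≤ 1)
    (h1 : D * U.card ≤ F.card)
    (h2 : ∀ v, ((F.filter (fun e => v ∈ e)).card : ℝ) ≤ (2 * k + 1) * D)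
    (hK1 : 2 * (k : ℝ) + 1 ≤ K) (hK2 : c ≤ K) (hDτ : 1 ≤ D * τ ^ (k - 1)) :
    Spread U k (fun e => if e ∈ F then (1 : ℝ) else 0) D K τ := by
  classical
  have hK0 : 0 ≤ K := le_trans (by positivity) hK1
  refine ⟨?_, ?_, ?_, ?_⟩
  · intro e
    split_ifs <;> norm_num
  · intro e he
    have he' : e ∈ F := by
      by_contra h
      exact he (if_neg h)
    exact ⟨hFU e he', hE.unif e (hFE he')⟩
  · have h3 := deg_ind hFU (∅ : Finset ℕ)
    unfold deg at h3
    simp only [empty_subset, if_true] at h3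
    rw [h3, filter_true]
    rw [mul_comm]
    exact h1
  · intro J hJ
    rw [deg_ind hFU]
    by_cases hF0 : F.filter (fun e => J ⊆ e) = ∅
    · rw [hF0]
      simp only [card_empty, Nat.cast_zero, zero_mul]
      positivity
    obtain ⟨e, he⟩ := nonempty_iff_ne_empty.2 hF0
    rw [mem_filter] at he
    have hJk : J.card ≤ k := by
      rw [← hE.unif e (hFE he.1)]
      exact card_le_card he.2
    obtain ⟨u, hu⟩ := hJ
    by_cases hJ1 : J.card = 1
    · rw [hJ1, pow_one]
      apply mul_le_mul_of_nonneg_right _ hτ.le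
      have h3 : ((F.filter (fun e => J ⊆ e)).card : ℝ) ≤ ((F.filter (fun e => u ∈ e)).card : ℝ) := by
        exact_mod_cast card_le_card fun e he => by
          rw [mem_filter] at he ⊢
          exact ⟨he.1, he.2 hu⟩
      exact h3.trans ((h2 u).trans (mul_le_mul_of_nonneg_right hK1 hD.le))
    · have hJ2 : 2 ≤ J.card := by
        have : 1 ≤ J.card := card_pos.2 ⟨u, hu⟩
        omega
      obtain ⟨v, hv, huv⟩ := exists_mem_ne (s := J) (by omega) u
      have h3 : ((F.filter (fun e => J ⊆ e)).card : ℝ) ≤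
          ((E.filter (fun e => u ∈ e ∧ v ∈ e)).card : ℝ) := by
        exact_mod_cast card_le_card fun e he => by
          rw [mem_filter] at he ⊢
          exact ⟨hFE he.1, he.2 hu, he.2 hv⟩
      have h4 : ((F.filter (fun e => J ⊆ e)).card : ℝ) ≤ K := h3.trans ((hE.pair u v huv.symm).trans hK2)
      have h5 : τ ≤ D * τ ^ J.card := by
        have e1 : τ ^ k ≤ τ ^ J.card := pow_le_pow_of_le_one hτ.le hτ1 hJk
        have e2 : τ ^ k = τ ^ (k - 1) * τ := by
          rw [← pow_succ]
          congr 1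
          omega
        calc τ = 1 * τ := (one_mul τ).symm
          _ ≤ D * τ ^ (k - 1) * τ := mul_le_mul_of_nonneg_right hDτ hτ.le
          _ = D * τ ^ k := by rw [e2]; ring
          _ ≤ D * τ ^ J.card := mul_le_mul_of_nonneg_left e1 hD.le
      calc ((F.filter (fun e => J ⊆ e)).card : ℝ) * τ ≤ K * (D * τ ^ J.card) :=
            mul_le_mul h4 h5 hτ.le hK0
        _ = _ := by ring

/-- the number of edges inside a set -/
theorem edges_le {E : Finset (Finset ℕ)} {k : ℕ} {c : ℝ} (hE : HG E k c) (hk : 2 ≤ k)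
    (hc : 0 ≤ c) (U : Finset ℕ) : ((E.filter (fun e => e ⊆ U)).card : ℝ) ≤ c * (U.card : ℝ) ^ 2 := by
  classical
  have h1 : E.filter (fun e => e ⊆ U) ⊆ U.offDiag.biUnion fun z => E.filter (fun e => z.1 ∈ e ∧ z.2 ∈ e) := by
    intro e he
    rw [mem_filter] at he
    have h2 : 1 < e.card := by rw [hE.unif e he.1]; omega
    obtain ⟨u, hu, v, hv, huv⟩ := one_lt_card.1 h2
    rw [mem_biUnion]
    refine ⟨(u, v), mem_offDiag.2 ⟨he.2 hu, he.2 hv, huv⟩, mem_filter.2 ⟨he.1, hu, hv⟩⟩
  have h2 : ((E.filter (fun e => e ⊆ U)).card : ℝ) ≤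
      ∑ z ∈ U.offDiag, ((E.filter (fun e => z.1 ∈ e ∧ z.2 ∈ e)).card : ℝ) := by
    exact_mod_cast (card_le_card h1).trans card_biUnion_le
  refine h2.trans ?_
  have h3 : ∑ z ∈ U.offDiag, ((E.filter (fun e => z.1 ∈ e ∧ z.2 ∈ e)).card : ℝ) ≤
      ∑ _z ∈ U.offDiag, c := sum_le_sum fun z hz => hE.pair _ _ (mem_offDiag.1 hz).2.2
  refine h3.trans ?_
  rw [sum_const, nsmul_eq_mul, mul_comm]
  apply mul_le_mul_of_nonneg_left _ hc
  have h4 : U.offDiag.card ≤ U.card * U.card := by
    rw [offDiag_card]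
    omega
  have h5 : (U.offDiag.card : ℝ) ≤ (U.card : ℝ) * U.card := by exact_mod_cast h4
  rw [sq]
  exact h5

end Pool.Agent.L5helper45.CT
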