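import Pool.Agent.L5helper45.CT.Fp

set_option autoImplicit false

/-! # Counting progression-free subsets of `F_p^n` (helper45) -/

namespace Pool.Agent.L5helper45.CT

open Finset

variable {p : ℕ} [hpf : Fact p.Prime]

/-- the lower bound `r_k(F_p^t) ≥ c μ^t`, `μ = p^(1-1/k)` -/
theorem norm_growth {k : ℕ} (hk : 3 ≤ k) (hkp : k ≤ p) :
    ∃ μ c : ℝ, 1 < μ ∧ μ < p ∧ 0 < c ∧ (∀ t : ℕ, c * μ ^ t ≤ r k p t) ∧
      Real.log p / Real.log (p / μ) = k := by
  have hp0 : (0 : ℝ) < p := by exact_mod_cast hpf.out.pos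
  have hp1 : (1 : ℝ) < p := by exact_mod_cast hpf.out.one_lt
  have hk3 : (3 : ℝ) ≤ k := by exact_mod_cast hk
  have hk0 : (0 : ℝ) < k := by linarith
  set θ : ℝ := ((k : ℝ) - 1) / k with hθ
  have hθ0 : 0 < θ := div_pos (by linarith) hk0
  have hθ1 : θ < 1 := by rw [hθ, div_lt_one hk0]; linarith
  set μ : ℝ := (p : ℝ) ^ θ with hμ
  have hμ1 : 1 < μ := Real.one_lt_rpow hp1 hθ0
  have hμp : μ < p := by
    calc μ < (p : ℝ) ^ (1 : ℝ) := Real.rpow_lt_rpow_of_exponent_lt hp1 hθ1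
      _ = p := Real.rpow_one _
  have h1 : μ ^ k ≤ r k p k := by
    obtain ⟨A, hA, hcard⟩ := Pool.Agent.H523R2.AP.norm_set (p := p) hk hkp
    have hA' : APFree k p k A := by
      intro x y h
      by_contra hy
      exact hA x y hy h
    have h2 := card_le_r hA'
    rw [hcard] at h2
    have h3 : μ ^ k = (p : ℝ) ^ (k - 1) := by
      rw [hμ, ← Real.rpow_natCast, ← Real.rpow_mul hp0.le, hθ, div_mul_cancel₀ _ hk0.ne',
        ← Real.rpow_natCast]
      congr 1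
      rw [Nat.cast_sub (by omega)]
      push_cast
      ring
    rw [h3]
    exact_mod_cast h2
  refine ⟨μ, (μ ^ k)⁻¹, hμ1, hμp, by positivity, growth (by omega) hμ1.le (by omega) h1, ?_⟩
  have hlp : 0 < Real.log p := Real.log_pos hp1
  rw [Real.log_div hp0.ne' (by linarith), hμ, Real.log_rpow hp0, hθ]
  field_simp
  ring

/-- the containers with the explicit exponent -/
theorem containers_norm {k : ℕ} (hk : 3 ≤ k) (hkp : k ≤ p) :
    ∃ η K₁ C : ℝ, 0 < η ∧ 1 ≤ K₁ ∧ 0 < C ∧ ∀ (n : ℕ) (K : ℝ), K₁ ≤ K →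
      ∃ 𝒞 : Finset (Finset (Fin n → ZMod p)),
        (𝒞.card : ℝ) ≤ Real.exp (C * r k p n * K ^ (-η)) ∧
        (∀ U ∈ 𝒞, (U.card : ℝ) ≤ K * r k p n) ∧
        ∀ A : Finset (Fin n → ZMod p), APFree k p n A → ∃ U ∈ 𝒞, A ⊆ U := by
  obtain ⟨μ, c, h1, h2, h3, h4, h5⟩ := norm_growth hk hkp
  have hk3 : (3 : ℝ) ≤ k := by exact_mod_cast hk
  have hk1 : (0 : ℝ) < (k : ℝ) - 1 := by linarith
  obtain ⟨K₁, C, h6, h7, h8⟩ := fp_containers hk hkp (η := 1 / (2 * ((k : ℝ) - 1))) h1 h2 h3 h4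
    (by positivity) (by
      rw [h5]
      have : (1 + 1 / (2 * ((k : ℝ) - 1))) * ((k : ℝ) - 1) = (k : ℝ) - 1 / 2 := by
        field_simp
        ring
      rw [this]
      linarith)
  exact ⟨1 / (2 * ((k : ℝ) - 1)), K₁, C, by positivity, h6, h7, h8⟩

open Classical in
/-- the total number -/
theorem count_total {k : ℕ} (hk : 3 ≤ k) (hkp : k ≤ p) :
    ∃ C : ℕ, ∀ n : ℕ, ((univ : Finset (Finset (Fin n → ZMod p))).filter
      (fun A => APFree k p n A)).card ≤ 2 ^ (C * r k p n) := by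
  obtain ⟨η, K₁, C₀, hη, hK₁, hC₀, h⟩ := containers_norm (p := p) hk hkp
  refine ⟨⌈C₀ * 2⌉₊ + ⌈K₁⌉₊, fun n => ?_⟩
  obtain ⟨𝒞, h1, h2, h3⟩ := h n K₁ le_rfl
  set s : ℕ := r k p n with hs
  have e1 : ((univ : Finset (Finset (Fin n → ZMod p))).filter (fun A => APFree k p n A)).card ≤
      ∑ U ∈ 𝒞, U.powerset.card := by
    refine (card_le_card ?_).trans (card_biUnion_le)
    intro A hA
    obtain ⟨U, hU, hAU⟩ := h3 A (mem_filter.1 hA).2
    exact mem_biUnion.2 ⟨U, hU, mem_powerset.2 hAU⟩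
  have e2 : ∑ U ∈ 𝒞, U.powerset.card ≤ ∑ _U ∈ 𝒞, 2 ^ (⌈K₁⌉₊ * s) := by
    refine sum_le_sum fun U hU => ?_
    rw [card_powerset]
    apply Nat.pow_le_pow_right (by norm_num)
    have e3 : (U.card : ℝ) ≤ (⌈K₁⌉₊ : ℝ) * s :=
      (h2 U hU).trans (mul_le_mul_of_nonneg_right (Nat.le_ceil _) (Nat.cast_nonneg _))
    exact_mod_cast e3
  rw [sum_const, smul_eq_mul] at e2
  have e4 : 𝒞.card ≤ 2 ^ (⌈C₀ * 2⌉₊ * s) := by
    have e5 : (𝒞.card : ℝ) ≤ (2 : ℝ) ^ (⌈C₀ * 2⌉₊ * s) := by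
      refine h1.trans ?_
      have e6 : C₀ * (s : ℝ) * K₁ ^ (-η) ≤ C₀ * s := by
        have : K₁ ^ (-η) ≤ 1 := Real.rpow_le_one_of_one_le_of_nonpos hK₁ (by linarith)
        exact mul_le_of_le_one_right (by positivity) this
      have e7 : C₀ * (s : ℝ) ≤ ((⌈C₀ * 2⌉₊ * s : ℕ) : ℝ) * Real.log 2 := by
        have h8 : (1 / 2 : ℝ) ≤ Real.log 2 := by have := Real.log_two_gt_d9; linarith
        have h9 : C₀ * 2 ≤ (⌈C₀ * 2⌉₊ : ℝ) := Nat.le_ceil _
        have h10 : (0 : ℝ) ≤ s := Nat.cast_nonneg _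
        push_cast
        calc C₀ * (s : ℝ) = (C₀ * 2 * s) * (1 / 2) := by ring
          _ ≤ ((⌈C₀ * 2⌉₊ : ℝ) * s) * Real.log 2 :=
            mul_le_mul (mul_le_mul_of_nonneg_right h9 h10) h8 (by norm_num) (by positivity)
      calc Real.exp (C₀ * (s : ℝ) * K₁ ^ (-η)) ≤ Real.exp (((⌈C₀ * 2⌉₊ * s : ℕ) : ℝ) * Real.log 2) :=
            Real.exp_le_exp.2 (e6.trans e7)
        _ = (2 : ℝ) ^ (⌈C₀ * 2⌉₊ * s) := by rw [Real.exp_nat_mul, Real.exp_log (by norm_num)]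
    exact_mod_cast e5
  calc _ ≤ _ := e1
    _ ≤ _ := e2
    _ ≤ 2 ^ (⌈C₀ * 2⌉₊ * s) * 2 ^ (⌈K₁⌉₊ * s) := Nat.mul_le_mul_right _ e4
    _ = _ := by rw [← pow_add]; congr 1; ring

theorem two_pow_le {k : ℕ} (hk : 1 ≤ k) (n : ℕ) [DecidablePred (APFree k p n)] :
    2 ^ r k p n ≤ ((univ : Finset (Finset (Fin n → ZMod p))).filter
      (fun A => APFree k p n A)).card := by
  classical
  obtain ⟨A, hA, hA'⟩ := exists_r (p := p) hk n
  rw [← hA', ← card_powerset]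
  refine card_le_card fun B hB => mem_filter.2 ⟨mem_univ _, ?_⟩
  intro x y h
  exact hA x y fun i hi => mem_powerset.1 hB (h i hi)

theorem choose_le (N m : ℕ) (hm : 1 ≤ m) :
    (N.choose m : ℝ) ≤ (Real.exp 1 * (N / m)) ^ m := by
  have hm0 : (0 : ℝ) < m := by exact_mod_cast hm
  have h1 : (N.choose m : ℝ) ≤ (N : ℝ) ^ m / (m.factorial : ℝ) := Nat.choose_le_pow_div m N
  have h2 := Real.pow_div_factorial_le_exp (m : ℝ) hm0.le m
  calc (N.choose m : ℝ) ≤ (N : ℝ) ^ m / (m.factorial : ℝ) := h1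
    _ = (N / m : ℝ) ^ m * ((m : ℝ) ^ m / m.factorial) := by
        rw [div_pow]
        field_simp
    _ ≤ (N / m : ℝ) ^ m * Real.exp m := mul_le_mul_of_nonneg_left h2 (by positivity)
    _ = _ := by
        rw [mul_pow, ← Real.exp_nat_mul, mul_one, mul_comm]

open Classical in
/-- the number of sets of given size -/
theorem count_size {k : ℕ} (hk : 3 ≤ k) (hkp : k ≤ p) :
    ∃ C : ℕ, 1 ≤ C ∧ ∀ n m : ℕ, 1 ≤ m → (((univ : Finset (Finset (Fin n → ZMod p))).filter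
      (fun A => APFree k p n A ∧ A.card = m)).card : ℝ) ≤
        (C * (r k p n : ℝ) / m) ^ (C * m) := by
  obtain ⟨η, K₁, C₀, hη, hK₁, hC₀, h⟩ := containers_norm (p := p) hk hkp
  set C : ℕ := ⌈Real.exp (C₀ + 1) * K₁⌉₊ + ⌈1 / η + 1⌉₊ with hC
  have hCa : Real.exp (C₀ + 1) * K₁ ≤ C := by
    rw [hC]
    push_cast
    have := Nat.le_ceil (Real.exp (C₀ + 1) * K₁)
    have h2 : (0 : ℝ) ≤ (⌈1 / η + 1⌉₊ : ℝ) := Nat.cast_nonneg _
    linarith
  have hCb : 1 / η + 1 ≤ C := by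
    rw [hC]
    push_cast
    have := Nat.le_ceil (1 / η + 1)
    have h2 : (0 : ℝ) ≤ (⌈Real.exp (C₀ + 1) * K₁⌉₊ : ℝ) := Nat.cast_nonneg _
    linarith
  have hC1r : (1 : ℝ) ≤ C := by
    have : 0 < 1 / η := by positivity
    linarith
  have hC1 : 1 ≤ C := by exact_mod_cast hC1r
  refine ⟨C, hC1, fun n m hm => ?_⟩
  have hm0 : (0 : ℝ) < m := by exact_mod_cast hm
  set s : ℕ := r k p n with hs
  by_cases hms : s < m
  · have : (univ : Finset (Finset (Fin n → ZMod p))).filter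
        (fun A => APFree k p n A ∧ A.card = m) = ∅ := by
      rw [filter_eq_empty_iff]
      rintro A _ ⟨hA, hAc⟩
      have := card_le_r hA
      omega
    rw [this, card_empty, Nat.cast_zero]
    positivity
  push Not at hms
  have hsm : (m : ℝ) ≤ s := by exact_mod_cast hms
  have hs0 : (0 : ℝ) < s := by linarith
  set x : ℝ := (s : ℝ) / m with hx
  have hx1 : 1 ≤ x := by rw [hx, one_le_div hm0]; exact hsm
  have hx0 : 0 < x := by linarith
  set K : ℝ := K₁ * x ^ (1 / η) with hK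
  have hxη : 1 ≤ x ^ (1 / η) := Real.one_le_rpow hx1 (by positivity)
  have hK1 : K₁ ≤ K := le_mul_of_one_le_right (by linarith) hxη
  have hK0 : 0 < K := by linarith
  obtain ⟨𝒞, h1, h2, h3⟩ := h n K hK1
  have hcost : C₀ * (s : ℝ) * K ^ (-η) ≤ C₀ * m := by
    have e1 : K ^ (-η) ≤ (x ^ (1 / η)) ^ (-η) :=
      Real.rpow_le_rpow_of_nonpos (by linarith) (le_mul_of_one_le_left (by linarith) hK₁) (by linarith)
    have e2 : (x ^ (1 / η)) ^ (-η) = x⁻¹ := by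
      rw [← Real.rpow_mul hx0.le, ← Real.rpow_neg_one]
      congr 1
      field_simp
    rw [e2] at e1
    calc C₀ * (s : ℝ) * K ^ (-η) ≤ C₀ * s * x⁻¹ := mul_le_mul_of_nonneg_left e1 (by positivity)
      _ = C₀ * m := by
        rw [hx, inv_div]
        field_simp
  have e1 : ((univ : Finset (Finset (Fin n → ZMod p))).filter
      (fun A => APFree k p n A ∧ A.card = m)).card ≤ ∑ U ∈ 𝒞, (U.powersetCard m).card := by
    refine (card_le_card ?_).trans (card_biUnion_le)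
    intro A hA
    rw [mem_filter] at hA
    obtain ⟨U, hU, hAU⟩ := h3 A hA.2.1
    exact mem_biUnion.2 ⟨U, hU, mem_powersetCard.2 ⟨hAU, hA.2.2⟩⟩
  have e2 : (((univ : Finset (Finset (Fin n → ZMod p))).filter
      (fun A => APFree k p n A ∧ A.card = m)).card : ℝ) ≤ ∑ U ∈ 𝒞, ((U.powersetCard m).card : ℝ) := by
    exact_mod_cast e1
  have e3 : ∀ U ∈ 𝒞, ((U.powersetCard m).card : ℝ) ≤ (Real.exp 1 * (K * x)) ^ m := by
    intro U hU
    rw [card_powersetCard]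
    refine (choose_le _ m hm).trans ?_
    apply pow_le_pow_left₀ (by positivity)
    apply mul_le_mul_of_nonneg_left _ (Real.exp_pos 1).le
    rw [hx, ← mul_div_assoc]
    exact div_le_div_of_nonneg_right (h2 U hU) hm0.le
  have e4 := e2.trans (sum_le_sum e3)
  rw [sum_const, nsmul_eq_mul] at e4
  refine e4.trans ?_
  have e5 : (𝒞.card : ℝ) ≤ Real.exp C₀ ^ m := by
    rw [← Real.exp_nat_mul]
    refine h1.trans (Real.exp_le_exp.2 (hcost.trans (le_of_eq (by ring))))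
  calc (𝒞.card : ℝ) * (Real.exp 1 * (K * x)) ^ m ≤ Real.exp C₀ ^ m * (Real.exp 1 * (K * x)) ^ m :=
        mul_le_mul_of_nonneg_right e5 (by positivity)
    _ = (Real.exp (C₀ + 1) * K₁ * x ^ (1 / η + 1)) ^ m := by
        rw [← mul_pow, Real.rpow_add hx0, Real.rpow_one, Real.exp_add, hK]
        congr 1
        ring
    _ ≤ ((C * x) ^ C) ^ m := by
        apply pow_le_pow_left₀ (by positivity)
        calc Real.exp (C₀ + 1) * K₁ * x ^ (1 / η + 1) ≤ C * x ^ (C : ℝ) :=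
              mul_le_mul hCa (Real.rpow_le_rpow_of_exponent_le hx1 hCb) (by positivity) (by positivity)
          _ = C * x ^ C := by rw [Real.rpow_natCast]
          _ ≤ (C : ℝ) ^ C * x ^ C := by
              apply mul_le_mul_of_nonneg_right _ (by positivity)
              exact le_self_pow₀ hC1r (by omega)
          _ = (C * x) ^ C := by rw [mul_pow]
    _ = _ := by
        rw [← pow_mul, hx, mul_div_assoc]

end Pool.Agent.L5helper45.CT
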