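import Pool.Agent.L5helper45.CT.Bal

set_option autoImplicit false

/-! # Container iteration from supersaturation at the extremal scale (helper45) -/

namespace Pool.Agent.L5helper45.CT

open Finset
open Pool.Agent.Y940.CT (Spread Cov deg Ind containers cost)

/-- `I` contains no edge of `E` -/
def IndE (E : Finset (Finset ℕ)) (I : Finset ℕ) : Prop := ∀ e ∈ E, ¬ e ⊆ I

/-- supersaturation at the scale `s` -/
def SS (E : Finset (Finset ℕ)) (W : Finset ℕ) (a g K₀ s : ℝ) : Prop :=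
  ∀ B ⊆ W, K₀ * s ≤ B.card →
    a * B.card * ((B.card : ℝ) / s) ^ g ≤ ((E.filter (fun e => e ⊆ B)).card : ℝ)

theorem step (k : ℕ) (hk : 3 ≤ k) {c a g K₀ η : ℝ} (hc : 1 ≤ c) (ha : 0 < a) (hK₀ : 0 < K₀)
    (hη : 0 < η) (hg : (1 + η) * (k - 1) < g) :
    ∃ δ : ℝ, 0 < δ ∧ δ ≤ 1 / 2 ∧ ∃ K₁ C : ℝ, 1 ≤ K₁ ∧ 0 < C ∧
      ∀ (E : Finset (Finset ℕ)) (W : Finset ℕ) (s : ℝ), HG E k c → 1 ≤ s → SS E W a g K₀ s →
      ∀ U ⊆ W, K₁ * s ≤ U.card →
      Cov (fun I => I ⊆ U ∧ IndE E I) U (Real.exp (C * s * ((U.card : ℝ) / s) ^ (-η)))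
        ((1 - δ) * U.card) := by
  classical
  have hk3 : (3 : ℝ) ≤ k := by exact_mod_cast hk
  have hk1 : (0 : ℝ) < (k : ℝ) - 1 := by linarith
  have hg0 : 0 < g := lt_trans (by positivity) hg
  set K : ℝ := max (2 * (k : ℝ) + 1) c with hK
  have hK1 : 1 ≤ K := le_max_of_le_right hc
  obtain ⟨δ₀, hδ₀, hδ₁, τ₀, hτ₀, hτ₁, hcont⟩ := containers k (by omega) K hK1
  set ζ : ℝ := 1 - (1 + η) * (k - 1) / g with hζ
  have hζ0 : 0 < ζ := by
    rw [hζ, sub_pos, div_lt_one hg0]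
    exact hg
  set a₂ : ℝ := a * (2 : ℝ) ^ (-(g + 2)) with ha₂
  have ha₂0 : 0 < a₂ := by positivity
  -- the threshold
  set T : ℝ := max 1 (τ₀ ^ (-((k : ℝ) - 1))) / a₂ with hT
  have hT0 : 0 < T := by
    have : (0 : ℝ) < max 1 (τ₀ ^ (-((k : ℝ) - 1))) := lt_of_lt_of_le one_pos (le_max_left _ _)
    positivity
  set K₁ : ℝ := max (max 1 c) (max (2 * K₀) (T ^ (1 / g))) with hK₁
  refine ⟨min δ₀ (1 / 2), lt_min hδ₀ (by norm_num), min_le_right _ _, K₁,
    ((k - 1 : ℕ) : ℝ) * (2 / ζ + 1) * a₂ ^ (-((1 + η) / g)), ?_, ?_, ?_⟩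
  · exact (le_max_left 1 c).trans (le_max_left _ _)
  · have : (0 : ℝ) < ((k - 1 : ℕ) : ℝ) := by exact_mod_cast (by omega : 0 < k - 1)
    positivity
  intro E W s hE hs hSS U hUW hU
  have hs0 : 0 < s := by linarith
  set κ : ℝ := (U.card : ℝ) / s with hκ
  have hκ1 : K₁ ≤ κ := by rw [hκ, le_div_iff₀ hs0]; exact hU
  have hκ_one : 1 ≤ κ := ((le_max_left 1 c).trans (le_max_left _ _)).trans hκ1
  have hκc : c ≤ κ := ((le_max_right 1 c).trans (le_max_left _ _)).trans hκ1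
  have hκ2 : 2 * K₀ ≤ κ := ((le_max_left _ _).trans (le_max_right _ _)).trans hκ1
  have hκT : T ^ (1 / g) ≤ κ := ((le_max_right _ _).trans (le_max_right _ _)).trans hκ1
  have hκ0 : 0 < κ := by linarith
  have hUκ : (U.card : ℝ) = κ * s := by rw [hκ]; field_simp
  have hUc : c ≤ (U.card : ℝ) := by
    rw [hUκ]
    nlinarith
  have hU0 : (0 : ℝ) < U.card := by linarith
  have hκg : T ≤ κ ^ g := by
    have h1 := Real.rpow_le_rpow (by positivity) hκT hg0.le
    rwa [← Real.rpow_mul hT0.le, one_div, inv_mul_cancel₀ hg0.ne', Real.rpow_one] at h1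
  set D : ℝ := a₂ * κ ^ g with hD
  have hD1' : max 1 (τ₀ ^ (-((k : ℝ) - 1))) ≤ D := by
    rw [hT, div_le_iff₀ ha₂0, mul_comm] at hκg
    exact hκg
  have hD1 : 1 ≤ D := (le_max_left _ _).trans hD1'
  have hD0 : 0 < D := by linarith
  set τ : ℝ := D ^ (-(1 / ((k : ℝ) - 1))) with hτ
  have hτ0 : 0 < τ := Real.rpow_pos_of_pos hD0 _
  have hττ₀ : τ ≤ τ₀ := by
    have h1 := (le_max_right _ _).trans hD1'
    have h2 : D ^ (-(1 / ((k : ℝ) - 1))) ≤ (τ₀ ^ (-((k : ℝ) - 1))) ^ (-(1 / ((k : ℝ) - 1))) :=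
      Real.rpow_le_rpow_of_nonpos (by positivity) h1 (by
        rw [neg_nonpos]; positivity)
    rw [← Real.rpow_mul hτ₀.le] at h2
    have h3 : -((k : ℝ) - 1) * -(1 / ((k : ℝ) - 1)) = 1 := by field_simp
    rw [h3, Real.rpow_one] at h2
    exact h2
  have hτ1 : τ ≤ 1 := hττ₀.trans hτ₁
  have hDτ : D * τ ^ (k - 1) = 1 := by
    rw [hτ, ← Real.rpow_natCast, ← Real.rpow_mul hD0.le]
    have h1 : -(1 / ((k : ℝ) - 1)) * ((k - 1 : ℕ) : ℝ) = -1 := by
      rw [Nat.cast_sub (by omega)]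
      push_cast
      field_simp
    rw [h1, Real.rpow_neg_one, mul_inv_cancel₀ hD0.ne']
  -- balanced supersaturation
  have hbal : ∀ B ⊆ U, (U.card : ℝ) / 2 ≤ B.card →
      D * U.card < ((E.filter (fun e => e ⊆ B)).card : ℝ) := by
    intro B hB hBc
    have h1 : K₀ * s ≤ B.card := by
      refine le_trans ?_ hBc
      rw [hUκ]
      nlinarith
    refine lt_of_lt_of_le ?_ (hSS B (hB.trans hUW) h1)
    have h2 : κ / 2 ≤ (B.card : ℝ) / s := by
      rw [le_div_iff₀ hs0]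
      rw [hUκ] at hBc
      linarith
    have h3 : (κ / 2) ^ g ≤ ((B.card : ℝ) / s) ^ g := Real.rpow_le_rpow (by linarith) h2 hg0.le
    have h4 : (κ / 2) ^ g = κ ^ g * (2 : ℝ) ^ (-g) := by
      rw [Real.div_rpow hκ0.le (by norm_num), Real.rpow_neg (by norm_num)]
      rfl
    have h5 : (2 : ℝ) ^ (-(g + 2)) = (2 : ℝ) ^ (-g) / 4 := by
      rw [neg_add, Real.rpow_add (by norm_num)]
      norm_num
      ring
    have h6 : (0 : ℝ) < κ ^ g * (2 : ℝ) ^ (-g) :=
      mul_pos (Real.rpow_pos_of_pos hκ0 _) (Real.rpow_pos_of_pos two_pos _)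
    calc D * U.card = a * (U.card / 4) * (κ ^ g * (2 : ℝ) ^ (-g)) := by
          rw [hD, ha₂, h5]; ring
      _ < a * (U.card / 2) * (κ ^ g * (2 : ℝ) ^ (-g)) := by
          apply mul_lt_mul_of_pos_right _ h6
          apply mul_lt_mul_of_pos_left _ ha
          linarith
      _ ≤ a * B.card * (κ ^ g * (2 : ℝ) ^ (-g)) := by
          apply mul_le_mul_of_nonneg_right _ h6.le
          exact mul_le_mul_of_nonneg_left hBc ha.le
      _ ≤ a * B.card * ((B.card : ℝ) / s) ^ g := by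
          rw [← h4]
          exact mul_le_mul_of_nonneg_left h3 (mul_nonneg ha.le (Nat.cast_nonneg _))
  obtain ⟨F, hFE, hFU, hF1, hF2⟩ := balanced E hE.unif (by omega) U hD1 hbal
  have hspread := spread_of hE hFE hFU hD0 hτ0 hτ1 hF1 hF2 (le_max_left _ _) (le_max_right _ _)
    (le_of_eq hDτ.symm)
  -- `τ |U| ≥ 1`
  have hτU : 1 ≤ U.card * τ := by
    have h1 : D ≤ c * U.card := by
      have e1 := hbal U (Subset.refl U) (by linarith)
      have e2 := edges_le hE (by omega) (by linarith) U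
      have e3 : D * U.card ≤ (c * U.card) * U.card := by
        calc D * U.card ≤ _ := e1.le
          _ ≤ _ := e2
          _ = _ := by ring
      exact le_of_mul_le_mul_right e3 hU0
    have h2 : D ^ (-(1 / 2 : ℝ)) ≤ τ := by
      rw [hτ]
      apply Real.rpow_le_rpow_of_exponent_le hD1
      rw [neg_le_neg_iff]
      apply one_div_le_one_div_of_le (by norm_num)
      linarith
    have h3 : (c * U.card) ^ (-(1 / 2 : ℝ)) ≤ D ^ (-(1 / 2 : ℝ)) :=
      Real.rpow_le_rpow_of_nonpos hD0 h1 (by norm_num)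
    have h4 : ((U.card : ℝ) * U.card) ^ (-(1 / 2 : ℝ)) ≤ (c * U.card) ^ (-(1 / 2 : ℝ)) :=
      Real.rpow_le_rpow_of_nonpos (mul_pos (by linarith) hU0)
        (mul_le_mul_of_nonneg_right hUc hU0.le) (by norm_num)
    have h5 : ((U.card : ℝ) * U.card) ^ (-(1 / 2 : ℝ)) = (U.card : ℝ)⁻¹ := by
      rw [← sq, ← Real.rpow_natCast, ← Real.rpow_mul hU0.le]
      norm_num
      rw [Real.rpow_neg_one]
    rw [h5] at h4
    calc (1 : ℝ) = U.card * (U.card : ℝ)⁻¹ := (mul_inv_cancel₀ hU0.ne').symm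
      _ ≤ U.card * τ := mul_le_mul_of_nonneg_left (h4.trans (h3.trans h2)) hU0.le
  set q : ℕ := ⌈(U.card : ℝ) * τ⌉₊ with hq
  have hq1 : (U.card : ℝ) * τ ≤ q := Nat.le_ceil _
  have hq2 : (q : ℝ) ≤ 2 * τ * U.card := by
    have := Nat.ceil_lt_add_one (mul_nonneg hU0.le hτ0.le)
    linarith
  have hmain := hcont U _ D τ q hD0 hτ0 hττ₀ hq1 hq2 hspread
  refine hmain.mono ?_ ?_ ?_
  · rintro I ⟨hI1, hI2⟩
    refine ⟨hI1, fun e he => ?_⟩
    by_contra hne
    have : e ∈ F := by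
      by_contra h
      exact hne (if_neg h)
    exact hI2 e (hFE this) he
  · refine (cost (m := (U.card : ℝ)) rfl hτ0 hτ1 hζ0 hq2).trans (Real.exp_le_exp.2 ?_)
    have h1 : τ ^ (1 - ζ) = a₂ ^ (-((1 + η) / g)) * κ ^ (-(1 + η)) := by
      rw [hτ, ← Real.rpow_mul hD0.le, hD,
        Real.mul_rpow ha₂0.le (Real.rpow_nonneg hκ0.le _), ← Real.rpow_mul hκ0.le]
      have e1 : -(1 / ((k : ℝ) - 1)) * (1 - ζ) = -((1 + η) / g) := by
        rw [hζ]
        field_simp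
        ring
      have e2 : g * (-(1 / ((k : ℝ) - 1)) * (1 - ζ)) = -(1 + η) := by
        rw [e1]
        field_simp
      rw [e2, e1]
    rw [h1, hUκ]
    have h2 : κ * κ ^ (-(1 + η)) = κ ^ (-η) := by
      rw [← Real.rpow_one_add' hκ0.le (by linarith)]
      congr 1
      ring
    apply le_of_eq
    calc ((k - 1 : ℕ) : ℝ) * (2 / ζ + 1) * (κ * s * (a₂ ^ (-((1 + η) / g)) * κ ^ (-(1 + η))))
        = ((k - 1 : ℕ) : ℝ) * (2 / ζ + 1) * a₂ ^ (-((1 + η) / g)) * s * (κ * κ ^ (-(1 + η))) := by ring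
      _ = _ := by rw [h2]
  · apply mul_le_mul_of_nonneg_right _ hU0.le
    have := min_le_left δ₀ (1 / 2)
    linarith

theorem cov_sub {P : Finset ℕ → Prop} {Z U : Finset ℕ} {n γ : ℝ} (h : Cov P Z n γ)
    (hZU : Z ⊆ U) : Cov P U n γ := by
  obtain ⟨C, h1, h2, h3⟩ := h
  exact ⟨C, h1, fun c hc => ⟨(h2 c hc).1.trans hZU, (h2 c hc).2⟩, h3⟩

/-- the iteration -/
theorem iter (k : ℕ) (hk : 3 ≤ k) {c a g K₀ η : ℝ} (hc : 1 ≤ c) (ha : 0 < a) (hK₀ : 0 < K₀)
    (hη : 0 < η) (hg : (1 + η) * (k - 1) < g) :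
    ∃ K₁ C : ℝ, 1 ≤ K₁ ∧ 0 < C ∧
      ∀ (E : Finset (Finset ℕ)) (W : Finset ℕ) (s : ℝ), HG E k c → 1 ≤ s → SS E W a g K₀ s →
      ∀ K : ℝ, K₁ ≤ K →
      Cov (fun I => I ⊆ W ∧ IndE E I) W (Real.exp (C * s * K ^ (-η))) (K * s) := by
  classical
  obtain ⟨δ, hδ0, hδ1, K₁, C, hK₁, hC, hstep⟩ := step k hk hc ha hK₀ hη hg
  set ρ : ℝ := (1 - δ)⁻¹ with hρ
  have h1δ : 0 < 1 - δ := by linarith
  have hρ1 : 1 < ρ := by
    rw [hρ, one_lt_inv₀ h1δ]
    linarith
  have hρ0 : 0 < ρ := by linarith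
  set x : ℝ := ρ ^ (-η) with hx
  have hx0 : 0 < x := by positivity
  have hx1 : x < 1 := by
    rw [hx]
    exact Real.rpow_lt_one_of_one_lt_of_neg hρ1 (by linarith)
  have h1x : 0 < 1 - x := by linarith
  refine ⟨K₁, C / (1 - x), hK₁, by positivity, ?_⟩
  intro E W s hE hs hSS K hK
  have hs0 : 0 < s := by linarith
  have hK0 : 0 < K := by linarith
  have hKη : 0 < K ^ (-η) := by positivity
  have key : ∀ (j : ℕ), ∀ U ⊆ W, (U.card : ℝ) ≤ K * ρ ^ j * s →
      Cov (fun I => I ⊆ U ∧ IndE E I) U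
        (Real.exp (C * s * K ^ (-η) * ∑ i ∈ range j, x ^ i)) (K * s) := by
    intro j
    induction j with
    | zero =>
      intro U _ hU
      rw [range_zero, sum_empty, mul_zero, Real.exp_zero]
      refine Cov.one (C := U) (Subset.refl U) ?_ fun I hI => hI.1
      simpa using hU
    | succ j ih =>
      intro U hUW hU
      by_cases hsm : (U.card : ℝ) ≤ K * ρ ^ j * s
      · refine (ih U hUW hsm).mono (fun I hI => hI) (Real.exp_le_exp.2 ?_) le_rfl
        apply mul_le_mul_of_nonneg_left _ (by positivity)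
        exact sum_le_sum_of_subset_of_nonneg (range_subset_range.2 (Nat.le_succ j)) fun i _ _ =>
          pow_nonneg hx0.le i
      · push Not at hsm
        have hρj : 1 ≤ ρ ^ j := one_le_pow₀ hρ1.le
        have h1 : K₁ * s ≤ U.card := by
          refine le_trans ?_ hsm.le
          apply mul_le_mul_of_nonneg_right _ hs0.le
          nlinarith
        have h2 := hstep E W s hE hs hSS U hUW h1
        have h3 : C * s * ((U.card : ℝ) / s) ^ (-η) ≤ C * s * K ^ (-η) * x ^ j := by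
          have e1 : K * ρ ^ j ≤ (U.card : ℝ) / s := by
            rw [le_div_iff₀ hs0]
            exact hsm.le
          have e2 : ((U.card : ℝ) / s) ^ (-η) ≤ (K * ρ ^ j) ^ (-η) :=
            Real.rpow_le_rpow_of_nonpos (by positivity) e1 (by linarith)
          have e3 : (K * ρ ^ j) ^ (-η) = K ^ (-η) * x ^ j := by
            rw [Real.mul_rpow hK0.le (by positivity), hx, ← Real.rpow_natCast, ← Real.rpow_natCast,
              ← Real.rpow_mul hρ0.le, ← Real.rpow_mul hρ0.le, mul_comm (j : ℝ)]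
          rw [e3] at e2
          calc C * s * ((U.card : ℝ) / s) ^ (-η) ≤ C * s * (K ^ (-η) * x ^ j) :=
                mul_le_mul_of_nonneg_left e2 (by positivity)
            _ = _ := by ring
        have h4 : (1 - δ) * U.card ≤ K * ρ ^ j * s := by
          calc (1 - δ) * U.card ≤ (1 - δ) * (K * ρ ^ (j + 1) * s) :=
                mul_le_mul_of_nonneg_left hU h1δ.le
            _ = K * ρ ^ j * s * ((1 - δ) * ρ) := by ring
            _ = K * ρ ^ j * s := by rw [hρ, mul_inv_cancel₀ h1δ.ne', mul_one]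
        have h5 : Cov (fun I => I ⊆ U ∧ IndE E I) U
            (Real.exp (C * s * K ^ (-η) * x ^ j) *
              Real.exp (C * s * K ^ (-η) * ∑ i ∈ range j, x ^ i)) (K * s) := by
          refine Cov.comp (h2.mono (fun I hI => hI) (Real.exp_le_exp.2 h3) h4)
            (Real.exp_pos _).le ?_
          intro Z hZU hZ
          exact cov_sub ((ih Z (hZU.trans hUW) hZ).mono
            (fun I (hI : I ⊆ Z ∧ I ⊆ U ∧ IndE E I) => ⟨hI.1, hI.2.2⟩) le_rfl le_rfl) hZU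
        refine h5.mono (fun I hI => hI) (le_of_eq ?_) le_rfl
        rw [← Real.exp_add, sum_range_succ]
        congr 1
        ring
  obtain ⟨j, hj⟩ : ∃ j : ℕ, (W.card : ℝ) ≤ K * ρ ^ j * s := by
    obtain ⟨j, hj⟩ := pow_unbounded_of_one_lt ((W.card : ℝ) / (K * s)) hρ1
    refine ⟨j, ?_⟩
    rw [div_lt_iff₀ (by positivity)] at hj
    calc (W.card : ℝ) ≤ ρ ^ j * (K * s) := hj.le
      _ = _ := by ring
  refine (key j W (Subset.refl W) hj).mono (fun I hI => hI) (Real.exp_le_exp.2 ?_) le_rfl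
  have h6 : ∑ i ∈ range j, x ^ i ≤ 1 / (1 - x) := by
    rw [geom_sum_eq hx1.ne, ← neg_div_neg_eq, neg_sub, neg_sub]
    apply div_le_div_of_nonneg_right _ h1x.le
    have : 0 ≤ x ^ j := pow_nonneg hx0.le j
    linarith
  calc C * s * K ^ (-η) * ∑ i ∈ range j, x ^ i ≤ C * s * K ^ (-η) * (1 / (1 - x)) :=
        mul_le_mul_of_nonneg_left h6 (by positivity)
    _ = _ := by ring

end Pool.Agent.L5helper45.CT
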