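import Pool.Agent.L5helper45.CT.Sup
import Pool.Agent.L5helper45.CT.Step

set_option autoImplicit false

/-! # Containers for progression-free subsets of `F_p^n` (helper45) -/

namespace Pool.Agent.L5helper45.CT

open Finset
open Pool.Agent.Y940.CT (Cov)

variable {p : ℕ} [hpf : Fact p.Prime]

/-- growth from one dimension -/
theorem growth {k : ℕ} (hk : 2 ≤ k) {μ : ℝ} (hμ : 1 ≤ μ) {N₀ : ℕ} (hN : 1 ≤ N₀)
    (h : μ ^ N₀ ≤ r k p N₀) (t : ℕ) : (μ ^ N₀)⁻¹ * μ ^ t ≤ r k p t := by
  have hμ0 : 0 < μ := by linarith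
  have h1 : ∀ q : ℕ, (μ ^ N₀) ^ q ≤ r k p (N₀ * q) := by
    intro q
    induction q with
    | zero =>
      rw [pow_zero, mul_zero]
      exact_mod_cast one_le_r hk 0
    | succ q ih =>
      rw [pow_succ, Nat.mul_succ]
      have e1 : ((r k p (N₀ * q) * r k p N₀ : ℕ) : ℝ) ≤ r k p (N₀ * q + N₀) := by
        exact_mod_cast r_mul_le (p := p) (by omega : 1 ≤ k) (N₀ * q) N₀
      refine le_trans ?_ e1
      push_cast
      exact mul_le_mul ih h (by positivity) (Nat.cast_nonneg _)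
  have h2 : r k p (N₀ * (t / N₀)) ≤ r k p t := by
    have e1 := r_mul_le (p := p) (by omega : 1 ≤ k) (N₀ * (t / N₀)) (t % N₀)
    rw [Nat.div_add_mod] at e1
    have e2 := one_le_r (p := p) hk (t % N₀)
    calc r k p (N₀ * (t / N₀)) = r k p (N₀ * (t / N₀)) * 1 := (mul_one _).symm
      _ ≤ r k p (N₀ * (t / N₀)) * r k p (t % N₀) := Nat.mul_le_mul_left _ e2
      _ ≤ _ := e1
  have h3 : μ ^ t ≤ μ ^ N₀ * (μ ^ N₀) ^ (t / N₀) := by
    rw [← pow_mul, ← pow_add]
    apply pow_le_pow_right₀ hμ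
    have := Nat.div_add_mod t N₀
    have := Nat.mod_lt t (by omega : 0 < N₀)
    omega
  calc (μ ^ N₀)⁻¹ * μ ^ t ≤ (μ ^ N₀)⁻¹ * (μ ^ N₀ * (μ ^ N₀) ^ (t / N₀)) :=
        mul_le_mul_of_nonneg_left h3 (by positivity)
    _ = (μ ^ N₀) ^ (t / N₀) := by
        rw [← mul_assoc, inv_mul_cancel₀ (by positivity), one_mul]
    _ ≤ r k p (N₀ * (t / N₀)) := h1 _
    _ ≤ _ := by exact_mod_cast h2

/-- supersaturation at the extremal scale -/
theorem ss_real {k : ℕ} (hk : 2 ≤ k) {μ c : ℝ} (hμ1 : 1 < μ) (hμp : μ < p) (hc : 0 < c)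
    (hr : ∀ t : ℕ, c * μ ^ t ≤ r k p t) :
    ∃ a K₀ : ℝ, 0 < a ∧ 0 < K₀ ∧ ∀ (n : ℕ) (A : Finset (Fin n → ZMod p)),
      K₀ * r k p n ≤ A.card →
      a * A.card * ((A.card : ℝ) / r k p n) ^ (Real.log p / Real.log (p / μ)) ≤
        ((aps k A).card : ℝ) := by
  have hp0 : (0 : ℝ) < p := by exact_mod_cast hpf.out.pos
  have hp1 : (1 : ℝ) < p := by exact_mod_cast hpf.out.one_lt
  have hμ0 : 0 < μ := by linarith
  set b : ℝ := p / μ with hb
  have hb1 : 1 < b := by rw [hb, one_lt_div hμ0]; exact hμp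
  have hb0 : 0 < b := by linarith
  have hlb : 0 < Real.log b := Real.log_pos hb1
  have hlp : 0 < Real.log p := Real.log_pos hp1
  set g : ℝ := Real.log p / Real.log b with hg
  have hg0 : 0 < g := by positivity
  set K₀ : ℝ := 2 / c * (4 * p : ℝ) ^ (1 / g) with hK₀
  have hK₀0 : 0 < K₀ := by positivity
  refine ⟨(c / 2) ^ g / (4 * p), K₀, by positivity, hK₀0, ?_⟩
  intro n A hA
  have hrn : (0 : ℝ) < r k p n := by exact_mod_cast one_le_r hk n
  set κ : ℝ := (A.card : ℝ) / r k p n with hκ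
  have hκ1 : K₀ ≤ κ := by rw [hκ, le_div_iff₀ hrn]; exact hA
  have hκ0 : 0 < κ := by linarith
  have hAκ : (A.card : ℝ) = κ * r k p n := by rw [hκ]; field_simp
  set y : ℝ := c * κ / 2 with hy
  have hy1 : (4 * p : ℝ) ^ (1 / g) ≤ y := by
    have h1 : c / 2 * K₀ ≤ c / 2 * κ := mul_le_mul_of_nonneg_left hκ1 (by positivity)
    have h2 : c / 2 * K₀ = (4 * p : ℝ) ^ (1 / g) := by
      rw [hK₀]
      field_simp
    rw [h2] at h1
    calc (4 * p : ℝ) ^ (1 / g) ≤ c / 2 * κ := h1
      _ = y := by rw [hy]; ring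
  have hy4 : 4 * p ≤ y ^ g := by
    have h1 := Real.rpow_le_rpow (by positivity) hy1 hg0.le
    rwa [← Real.rpow_mul (by positivity), one_div, inv_mul_cancel₀ hg0.ne', Real.rpow_one] at h1
  have hyone : 1 ≤ y := by
    refine le_trans ?_ hy1
    exact Real.one_le_rpow (by linarith) (by positivity)
  have hy0 : 0 < y := by linarith
  have hly : 0 ≤ Real.log y := Real.log_nonneg hyone
  set t : ℕ := ⌊Real.log y / Real.log b⌋₊ with ht
  have ht1 : (t : ℝ) ≤ Real.log y / Real.log b := Nat.floor_le (by positivity)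
  have ht2 : Real.log y / Real.log b < t + 1 := Nat.lt_floor_add_one _
  have hbt : b ^ t ≤ y := by
    rw [← Real.log_le_log_iff (by positivity) hy0, Real.log_pow]
    rwa [le_div_iff₀ hlb] at ht1
  have hpt : y ^ g ≤ p ^ t * p := by
    rw [← Real.log_le_log_iff (Real.rpow_pos_of_pos hy0 _) (mul_pos (pow_pos hp0 _) hp0),
      Real.log_rpow hy0, Real.log_mul (pow_pos hp0 _).ne' hp0.ne', Real.log_pow]
    have h1 : g * Real.log y = Real.log p * (Real.log y / Real.log b) := by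
      rw [hg]
      field_simp
    rw [h1]
    have h2 := mul_le_mul_of_nonneg_left ht2.le hlp.le
    linarith
  -- the hypothesis of `sup`
  have hs : 2 * p ^ t * r k p n ≤ A.card * r k p t := by
    have h1 : (2 : ℝ) * p ^ t * r k p n ≤ A.card * r k p t := by
      have e1 : (p : ℝ) ^ t = b ^ t * μ ^ t := by
        rw [← mul_pow, hb]
        congr 1
        field_simp
      calc (2 : ℝ) * p ^ t * r k p n = (b ^ t) * (2 * μ ^ t * r k p n) := by rw [e1]; ring
        _ ≤ y * (2 * μ ^ t * r k p n) := mul_le_mul_of_nonneg_right hbt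
            (mul_nonneg (mul_nonneg (by norm_num) (pow_pos hμ0 t).le) hrn.le)
        _ = (κ * r k p n) * (c * μ ^ t) := by rw [hy]; ring
        _ ≤ (κ * r k p n) * r k p t := mul_le_mul_of_nonneg_left (hr t)
            (mul_nonneg hκ0.le hrn.le)
        _ = _ := by rw [hAκ]
    exact_mod_cast h1
  have h1 := sup hk n t A hs
  have h2 : (p : ℝ) ^ t * A.card ≤ 2 * ((aps k A).card + A.card) := by exact_mod_cast h1
  have h3 : y ^ g / p ≤ (p : ℝ) ^ t := by
    rw [div_le_iff₀ hp0]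
    exact hpt
  have h4 : 4 ≤ y ^ g / p := by
    rw [le_div_iff₀ hp0]
    exact hy4
  have hA0 : (0 : ℝ) ≤ A.card := Nat.cast_nonneg _
  have h5 : y ^ g / p / 4 * A.card ≤ (aps k A).card := by
    have e1 : y ^ g / p * A.card ≤ p ^ t * A.card := mul_le_mul_of_nonneg_right h3 hA0
    have e2 : 4 * (A.card : ℝ) ≤ y ^ g / p * A.card := mul_le_mul_of_nonneg_right h4 hA0
    have e3 : y ^ g / p / 4 * A.card = (y ^ g / p * A.card) / 4 := by ring
    rw [e3]
    linarith
  refine le_trans (le_of_eq ?_) h5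
  have h6 : y ^ g = (c / 2) ^ g * κ ^ g := by
    rw [← Real.mul_rpow (by positivity) hκ0.le, hy]
    congr 1
    ring
  rw [h6]
  ring

/-- an embedding of `F_p^n` in `ℕ` -/
noncomputable def emb (p n : ℕ) [Fact p.Prime] : (Fin n → ZMod p) ↪ ℕ :=
  (Fintype.equivFin (Fin n → ZMod p)).toEmbedding.trans Fin.valEmbedding

/-- the edge of a progression -/
noncomputable def edge (k : ℕ) {n : ℕ} (z : (Fin n → ZMod p) × (Fin n → ZMod p)) : Finset ℕ :=
  (range k).image fun i => emb p n (z.1 + i • z.2)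

/-- the hypergraph of the progressions -/
noncomputable def EE (k p n : ℕ) [Fact p.Prime] : Finset (Finset ℕ) :=
  (aps k (univ : Finset (Fin n → ZMod p))).image (edge k)

theorem smul_inj {k n : ℕ} (hkp : k ≤ p) {x y : Fin n → ZMod p} (hy : y ≠ 0) {i j : ℕ}
    (hi : i < k) (hj : j < k) (h : x + i • y = x + j • y) : i = j := by
  have h1 : i • y = j • y := add_left_cancel h
  obtain ⟨l, hl⟩ : ∃ l, y l ≠ 0 := by
    by_contra hcon
    push Not at hcon
    exact hy (funext hcon)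
  have h2 := congrFun h1 l
  rw [Pi.smul_apply, Pi.smul_apply, nsmul_eq_mul, nsmul_eq_mul] at h2
  have h3 := mul_right_cancel₀ hl h2
  rw [ZMod.natCast_eq_natCast_iff'] at h3
  rwa [Nat.mod_eq_of_lt (by omega), Nat.mod_eq_of_lt (by omega)] at h3

/-- two points determine the progression -/
theorem two_points {k n : ℕ} (hkp : k ≤ p) {x y x' y' : Fin n → ZMod p} {i j : ℕ}
    (hi : i < k) (hj : j < k) (hij : i ≠ j) (h1 : x + i • y = x' + i • y')
    (h2 : x + j • y = x' + j • y') : x = x' ∧ y = y' := by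
  have hy : y = y' := by
    by_contra hne
    have h3 : y - y' ≠ 0 := sub_ne_zero.2 hne
    have h4 : (0 : Fin n → ZMod p) + i • (y - y') = 0 + j • (y - y') := by
      rw [zero_add, zero_add, smul_sub, smul_sub]
      have e1 : i • y - i • y' = x' - x := by
        rw [sub_eq_sub_iff_add_eq_add, add_comm (i • y), h1, add_comm]
      have e2 : j • y - j • y' = x' - x := by
        rw [sub_eq_sub_iff_add_eq_add, add_comm (j • y), h2, add_comm]
      rw [e1, e2]
    exact hij (smul_inj hkp h3 hi hj h4)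
  subst hy
  exact ⟨add_right_cancel h1, rfl⟩

theorem HG_EE {k : ℕ} (hk : 2 ≤ k) (hkp : k ≤ p) (n : ℕ) : HG (EE k p n) k ((k : ℝ) ^ 2) := by
  classical
  constructor
  · intro e he
    obtain ⟨z, hz, rfl⟩ := mem_image.1 he
    unfold edge
    rw [card_image_of_injOn, card_range]
    intro i hi j hj hij
    rw [coe_range, Set.mem_Iio] at hi hj
    exact smul_inj hkp (mem_aps.1 hz).1 hi hj ((emb p n).injective hij)
  · intro u v huv
    have h1 : (EE k p n).filter (fun e => u ∈ e ∧ v ∈ e) ⊆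
        (range k ×ˢ range k).biUnion fun w => ((aps k (univ : Finset (Fin n → ZMod p))).filter
          fun z => emb p n (z.1 + w.1 • z.2) = u ∧ emb p n (z.1 + w.2 • z.2) = v).image (edge k) := by
      intro e he
      rw [mem_filter] at he
      obtain ⟨⟨z, hz, rfl⟩, hu, hv⟩ := And.intro (mem_image.1 he.1) he.2
      obtain ⟨i, hi, hiu⟩ := mem_image.1 hu
      obtain ⟨j, hj, hjv⟩ := mem_image.1 hv
      rw [mem_biUnion]
      exact ⟨(i, j), mem_product.2 ⟨hi, hj⟩, mem_image.2 ⟨z, mem_filter.2 ⟨hz, hiu, hjv⟩, rfl⟩⟩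
    have h2 : ((EE k p n).filter (fun e => u ∈ e ∧ v ∈ e)).card ≤ k * k := by
      refine (card_le_card h1).trans (card_biUnion_le.trans ?_)
      have h3 : ∀ w ∈ range k ×ˢ range k, (((aps k (univ : Finset (Fin n → ZMod p))).filter
          fun z => emb p n (z.1 + w.1 • z.2) = u ∧ emb p n (z.1 + w.2 • z.2) = v).image
            (edge k)).card ≤ 1 := by
        intro w hw
        rw [mem_product, mem_range, mem_range] at hw
        refine card_image_le.trans (card_le_one.2 ?_)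
        rintro ⟨x, y⟩ hz ⟨x', y'⟩ hz'
        simp only [mem_filter] at hz hz'
        have hij : w.1 ≠ w.2 := by
          intro h
          apply huv
          rw [← hz.2.1, ← hz.2.2, h]
        have e1 : x + w.1 • y = x' + w.1 • y' := (emb p n).injective (hz.2.1.trans hz'.2.1.symm)
        have e2 : x + w.2 • y = x' + w.2 • y' := (emb p n).injective (hz.2.2.trans hz'.2.2.symm)
        obtain ⟨e3, e4⟩ := two_points hkp hw.1 hw.2 hij e1 e2
        rw [e3, e4]
      refine (sum_le_sum h3).trans ?_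
      rw [sum_const, card_product, card_range, smul_eq_mul, mul_one]
    have h3 : (((EE k p n).filter (fun e => u ∈ e ∧ v ∈ e)).card : ℝ) ≤ ((k * k : ℕ) : ℝ) := by
      exact_mod_cast h2
    refine h3.trans (le_of_eq ?_)
    push_cast
    ring

/-- the image of `F_p^n` -/
noncomputable def WW (p n : ℕ) [Fact p.Prime] : Finset ℕ :=
  (univ : Finset (Fin n → ZMod p)).map (emb p n)

theorem SS_EE {k : ℕ} (hk : 2 ≤ k) (hkp : k ≤ p) {a K₀ g : ℝ} {n : ℕ}
    (h : ∀ A : Finset (Fin n → ZMod p), K₀ * r k p n ≤ A.card →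
      a * A.card * ((A.card : ℝ) / r k p n) ^ g ≤ ((aps k A).card : ℝ)) :
    SS (EE k p n) (WW p n) (a / (k : ℝ) ^ 2) g K₀ (r k p n) := by
  classical
  intro B hB hBc
  set A : Finset (Fin n → ZMod p) := univ.filter fun x => emb p n x ∈ B with hA
  have hBA : B = A.map (emb p n) := by
    ext b
    constructor
    · intro hb
      obtain ⟨x, _, hx⟩ := mem_map.1 (hB hb)
      exact mem_map.2 ⟨x, mem_filter.2 ⟨mem_univ _, by rw [hx]; exact hb⟩, hx⟩
    · intro hb
      obtain ⟨x, hx, rfl⟩ := mem_map.1 hb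
      exact (mem_filter.1 hx).2
  have hcard : B.card = A.card := by rw [hBA, card_map]
  rw [hcard] at hBc ⊢
  have h1 := h A hBc
  have hk0 : (0 : ℝ) < (k : ℝ) ^ 2 := by
    have : (0 : ℝ) < k := by exact_mod_cast (by omega : 0 < k)
    positivity
  have h2 : (aps k A).card ≤ k * k * ((aps k A).image (edge k)).card := by
    apply card_le_mul_card_image
    intro e he
    obtain ⟨z₀, hz₀, rfl⟩ := mem_image.1 he
    have hce : (edge k z₀).card ≤ k := card_image_le.trans (card_range k).le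
    have h3 : ((aps k A).filter fun z => edge k z = edge k z₀).card ≤
        (edge k z₀ ×ˢ edge k z₀).card := by
      refine card_le_card_of_injOn (fun z => (emb p n z.1, emb p n (z.1 + z.2))) ?_ ?_
      · rintro ⟨x, y⟩ hz
        simp only [coe_filter, Set.mem_ofPred_eq] at hz
        rw [mem_coe, mem_product, ← hz.2]
        constructor
        · refine mem_image.2 ⟨0, mem_range.2 (by omega), ?_⟩
          simp
        · refine mem_image.2 ⟨1, mem_range.2 (by omega), ?_⟩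
          simp
      · rintro ⟨x, y⟩ _ ⟨x', y'⟩ _ hxy
        simp only [Prod.mk.injEq] at hxy
        have e1 := (emb p n).injective hxy.1
        have e2 := (emb p n).injective hxy.2
        subst e1
        rw [add_left_cancel e2]
    refine h3.trans ?_
    rw [card_product]
    exact Nat.mul_le_mul hce hce
  have h3 : (aps k A).image (edge k) ⊆ (EE k p n).filter (fun e => e ⊆ B) := by
    intro e he
    obtain ⟨z, hz, rfl⟩ := mem_image.1 he
    rw [mem_aps] at hz
    refine mem_filter.2 ⟨mem_image.2 ⟨z, mem_aps.2 ⟨hz.1, fun i _ => mem_univ _⟩, rfl⟩, ?_⟩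
    intro b hb
    obtain ⟨i, hi, rfl⟩ := mem_image.1 hb
    rw [hBA]
    exact mem_map_of_mem _ (hz.2 i (mem_range.1 hi))
  have h4 : ((aps k A).card : ℝ) ≤ (k : ℝ) ^ 2 * (((EE k p n).filter (fun e => e ⊆ B)).card : ℝ) := by
    have e1 : ((aps k A).card : ℝ) ≤ ((k * k * ((aps k A).image (edge k)).card : ℕ) : ℝ) := by
      exact_mod_cast h2
    refine e1.trans ?_
    push_cast
    rw [sq]
    apply mul_le_mul_of_nonneg_left _ (by positivity)
    exact_mod_cast card_le_card h3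
  have h5 : a / (k : ℝ) ^ 2 * A.card * ((A.card : ℝ) / r k p n) ^ g =
      (a * A.card * ((A.card : ℝ) / r k p n) ^ g) / (k : ℝ) ^ 2 := by
    ring
  rw [h5, div_le_iff₀ hk0, mul_comm]
  rw [mul_comm] at h4
  linarith

theorem ind_of_free {k n : ℕ} {A : Finset (Fin n → ZMod p)} (hA : APFree k p n A) :
    A.map (emb p n) ⊆ WW p n ∧ IndE (EE k p n) (A.map (emb p n)) := by
  classical
  refine ⟨map_subset_map.2 (subset_univ _), ?_⟩
  intro e he hsub
  obtain ⟨z, hz, rfl⟩ := mem_image.1 he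
  rw [mem_aps] at hz
  apply hz.1
  apply hA z.1 z.2
  intro i hi
  have h1 : emb p n (z.1 + i • z.2) ∈ A.map (emb p n) :=
    hsub (mem_image.2 ⟨i, mem_range.2 hi, rfl⟩)
  rwa [mem_map' (emb p n)] at h1

/-- **Containers for the progression-free subsets of `F_p^n`.** -/
theorem fp_containers {k : ℕ} (hk : 3 ≤ k) (hkp : k ≤ p) {μ c η : ℝ} (hμ1 : 1 < μ) (hμp : μ < p)
    (hc : 0 < c) (hr : ∀ t : ℕ, c * μ ^ t ≤ r k p t) (hη : 0 < η)
    (hg : (1 + η) * (k - 1) < Real.log p / Real.log (p / μ)) :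
    ∃ K₁ C : ℝ, 1 ≤ K₁ ∧ 0 < C ∧ ∀ (n : ℕ) (K : ℝ), K₁ ≤ K →
      ∃ 𝒞 : Finset (Finset (Fin n → ZMod p)),
        (𝒞.card : ℝ) ≤ Real.exp (C * r k p n * K ^ (-η)) ∧
        (∀ U ∈ 𝒞, (U.card : ℝ) ≤ K * r k p n) ∧
        ∀ A : Finset (Fin n → ZMod p), APFree k p n A → ∃ U ∈ 𝒞, A ⊆ U := by
  classical
  obtain ⟨a, K₀, ha, hK₀, hss⟩ := ss_real (p := p) (by omega : 2 ≤ k) hμ1 hμp hc hr
  have hk3 : (3 : ℝ) ≤ k := by exact_mod_cast hk
  obtain ⟨K₁, C, hK₁, hC, hit⟩ := iter k hk (c := (k : ℝ) ^ 2) (a := a / (k : ℝ) ^ 2)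
    (g := Real.log p / Real.log (p / μ)) (K₀ := K₀) (η := η) (by nlinarith) (by positivity) hK₀ hη hg
  refine ⟨K₁, C, hK₁, hC, ?_⟩
  intro n K hK
  have hs : (1 : ℝ) ≤ r k p n := by exact_mod_cast one_le_r (by omega : 2 ≤ k) n
  obtain ⟨𝒞, h1, h2, h3⟩ := hit (EE k p n) (WW p n) (r k p n) (HG_EE (by omega) hkp n) hs
    (SS_EE (by omega) hkp (hss n)) K hK
  refine ⟨𝒞.image fun U => univ.filter fun x => emb p n x ∈ U, ?_, ?_, ?_⟩
  · refine le_trans ?_ h1
    exact_mod_cast card_image_le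
  · intro U' hU'
    obtain ⟨U, hU, rfl⟩ := mem_image.1 hU'
    refine le_trans ?_ (h2 U hU).2
    have : (univ.filter fun x => emb p n x ∈ U).card ≤ U.card := by
      refine card_le_card_of_injOn (emb p n) ?_ (emb p n).injective.injOn
      intro x hx
      simp only [coe_filter, Set.mem_ofPred_eq, mem_univ, true_and] at hx
      exact hx
    exact_mod_cast this
  · intro A hA
    obtain ⟨U, hU, hAU⟩ := h3 _ (ind_of_free hA)
    refine ⟨_, mem_image_of_mem _ hU, ?_⟩
    intro x hx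
    exact mem_filter.2 ⟨mem_univ _, hAU (mem_map_of_mem _ hx)⟩

end Pool.Agent.L5helper45.CT
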