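import Pool.Agent.L5helper45.CT.Count

set_option autoImplicit false

/-! # Facts on the growth rate `lam` (helper45) -/

namespace Pool.Agent.L5helper45.CT

open Finset

variable {p : ℕ} [hpf : Fact p.Prime]

theorem root_le (k n : ℕ) : (r k p (n + 1) : ℝ) ^ (1 / ((n : ℝ) + 1)) ≤ p := by
  have h : (r k p (n + 1) : ℝ) ≤ (p : ℝ) ^ (n + 1) := by exact_mod_cast r_le_pow k (n + 1)
  have hp : (0 : ℝ) ≤ p := Nat.cast_nonneg _
  have hn : (0 : ℝ) < (n : ℝ) + 1 := by positivity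
  calc (r k p (n + 1) : ℝ) ^ (1 / ((n : ℝ) + 1)) ≤ ((p : ℝ) ^ (n + 1)) ^ (1 / ((n : ℝ) + 1)) :=
        Real.rpow_le_rpow (Nat.cast_nonneg _) h (by positivity)
    _ = p := by
        rw [← Real.rpow_natCast, ← Real.rpow_mul hp]
        push_cast
        rw [mul_one_div_cancel hn.ne', Real.rpow_one]

theorem bdd_root (k : ℕ) :
    BddAbove (Set.range fun n : ℕ => (r k p (n + 1) : ℝ) ^ (1 / ((n : ℝ) + 1))) := by
  refine ⟨p, ?_⟩
  rintro _ ⟨n, rfl⟩
  exact root_le k n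

theorem lam_le (k : ℕ) : lam k p ≤ p := ciSup_le fun n => root_le k n

theorem r_le_lam {k : ℕ} (n : ℕ) : (r k p n : ℝ) ≤ lam k p ^ n := by
  rcases n with _ | n
  · rw [pow_zero]
    have := r_le_pow (p := p) k 0
    rw [pow_zero] at this
    exact_mod_cast this
  · have h : (r k p (n + 1) : ℝ) ^ (1 / ((n : ℝ) + 1)) ≤ lam k p := le_ciSup (bdd_root k) n
    have h0 : (0 : ℝ) ≤ (r k p (n + 1) : ℝ) := Nat.cast_nonneg _
    have hn : (0 : ℝ) < (n : ℝ) + 1 := by positivity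
    calc (r k p (n + 1) : ℝ) = ((r k p (n + 1) : ℝ) ^ (1 / ((n : ℝ) + 1))) ^ (n + 1) := by
          rw [← Real.rpow_natCast, ← Real.rpow_mul h0]
          push_cast
          rw [one_div_mul_cancel hn.ne', Real.rpow_one]
      _ ≤ lam k p ^ (n + 1) := pow_le_pow_left₀ (Real.rpow_nonneg h0 _) h _

theorem one_le_lam {k : ℕ} (hk : 2 ≤ k) : 1 ≤ lam k p := by
  have h := r_le_lam (p := p) (k := k) 1
  rw [pow_one] at h
  have h2 : (1 : ℝ) ≤ r k p 1 := by exact_mod_cast one_le_r hk 1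
  linarith

theorem exists_dim {k : ℕ} {μ : ℝ} (hμ0 : 0 ≤ μ) (hμ : μ < lam k p) :
    ∃ N₀ : ℕ, 1 ≤ N₀ ∧ μ ^ N₀ ≤ r k p N₀ := by
  obtain ⟨n, hn⟩ := exists_lt_of_lt_ciSup hμ
  refine ⟨n + 1, by omega, ?_⟩
  have h0 : (0 : ℝ) ≤ (r k p (n + 1) : ℝ) := Nat.cast_nonneg _
  have hn' : (0 : ℝ) < (n : ℝ) + 1 := by positivity
  calc μ ^ (n + 1) ≤ ((r k p (n + 1) : ℝ) ^ (1 / ((n : ℝ) + 1))) ^ (n + 1) :=
        pow_le_pow_left₀ hμ0 hn.le _
    _ = _ := by
        rw [← Real.rpow_natCast, ← Real.rpow_mul h0]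
        push_cast
        rw [one_div_mul_cancel hn'.ne', Real.rpow_one]

/-- `r_k(F_p^k) ≥ p^(k-1)` -/
theorem norm_r {k : ℕ} (hk : 3 ≤ k) (hkp : k ≤ p) : p ^ (k - 1) ≤ r k p k := by
  obtain ⟨A, hA, hcard⟩ := Pool.Agent.H523R2.AP.norm_set (p := p) hk hkp
  have hA' : APFree k p k A := by
    intro x y h
    by_contra hy
    exact hA x y hy h
  have h2 := card_le_r hA'
  rwa [hcard] at h2

theorem norm_le_lam {k : ℕ} (hk : 3 ≤ k) (hkp : k ≤ p) :
    (1 - 1 / (k : ℝ)) * Real.log p ≤ Real.log (lam k p) := by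
  have hp0 : (0 : ℝ) < p := by exact_mod_cast hpf.out.pos
  have hk0 : (0 : ℝ) < k := by exact_mod_cast (by omega : 0 < k)
  have hl : 0 < lam k p := lt_of_lt_of_le one_pos (one_le_lam (by omega))
  have h1 : ((p : ℝ)) ^ (k - 1) ≤ lam k p ^ k := by
    refine le_trans ?_ (r_le_lam (p := p) (k := k) k)
    exact_mod_cast norm_r hk hkp
  have h2 := Real.log_le_log (by positivity) h1
  rw [Real.log_pow, Real.log_pow, Nat.cast_sub (by omega)] at h2
  push_cast at h2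
  have h3 : (1 - 1 / (k : ℝ)) * Real.log p = (((k : ℝ) - 1) * Real.log p) / k := by
    field_simp
  rw [h3, div_le_iff₀ hk0]
  linarith

/-- the lower bounds `r_k(F_p^t) ≥ c e^(x t)`, `x` arbitrarily close to `log lam` -/
theorem growth_x {k : ℕ} (hk : 3 ≤ k) (hkp : k ≤ p) {x : ℝ} (hx0 : 0 ≤ x)
    (hx : x ≤ (1 - 1 / (k : ℝ)) * Real.log p ∨ x < Real.log (lam k p)) :
    ∃ c : ℝ, 0 < c ∧ ∀ t : ℕ, c * Real.exp x ^ t ≤ r k p t := by
  have hp0 : (0 : ℝ) < p := by exact_mod_cast hpf.out.pos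
  have hk0 : (0 : ℝ) < k := by exact_mod_cast (by omega : 0 < k)
  have hl : 0 < lam k p := lt_of_lt_of_le one_pos (one_le_lam (by omega))
  have h1 : ∃ N₀ : ℕ, 1 ≤ N₀ ∧ Real.exp x ^ N₀ ≤ r k p N₀ := by
    rcases hx with hx | hx
    · refine ⟨k, by omega, ?_⟩
      have h2 : ((p : ℝ)) ^ (k - 1) ≤ r k p k := by exact_mod_cast norm_r hk hkp
      refine le_trans ?_ h2
      rw [← Real.exp_nat_mul, ← Real.exp_log (by positivity : (0 : ℝ) < (p : ℝ) ^ (k - 1)),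
        Real.log_pow, Nat.cast_sub (by omega)]
      apply Real.exp_le_exp.2
      push_cast
      calc (k : ℝ) * x ≤ k * ((1 - 1 / (k : ℝ)) * Real.log p) :=
            mul_le_mul_of_nonneg_left hx hk0.le
        _ = _ := by field_simp
    · apply exists_dim (Real.exp_pos _).le
      rw [← Real.exp_log hl]
      exact Real.exp_lt_exp.2 hx
  obtain ⟨N₀, hN₀, h2⟩ := h1
  exact ⟨(Real.exp x ^ N₀)⁻¹, by positivity, growth (by omega) (Real.one_le_exp hx0) hN₀ h2⟩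

end Pool.Agent.L5helper45.CT
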