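import Pool.Agent.L5helper45.CT.Count
import Pool.Agent.R535.SP.Abs

set_option autoImplicit false

/-! # Random subsets of `F_p^n` (helper45) -/

namespace Pool.Agent.L5helper45.CT

open Finset
open Pool.Agent.R535.SP (rp rp_eq wt_nonneg rp_mono rp_union moment tail lower rp_true rp_not)

section gen

variable {V : Type} [Fintype V] [DecidableEq V]

theorem rp_or {q : ℝ} (hq0 : 0 ≤ q) (hq1 : q ≤ 1) (Q Q' : Finset V → Prop) :
    rp q (fun R => Q R ∨ Q' R) ≤ rp q Q + rp q Q' := by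
  classical
  have h := rp_union hq0 hq1 (univ : Finset Bool) (fun b => if b then Q else Q')
  rw [Fintype.sum_bool] at h
  refine le_trans (rp_mono hq0 hq1 ?_) h
  rintro R (h | h)
  · exact ⟨true, mem_univ _, by simpa using h⟩
  · exact ⟨false, mem_univ _, by simpa using h⟩

theorem markov {q : ℝ} (hq0 : 0 ≤ q) (hq1 : q ≤ 1) (f : Finset V → ℝ) (hf : ∀ R, 0 ≤ f R) {a : ℝ}
    (ha : 0 < a) : rp q (fun R => a ≤ f R) ≤
      (∑ R : Finset V, q ^ R.card * (1 - q) ^ (Fintype.card V - R.card) * f R) / a := by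
  classical
  rw [rp_eq, le_div_iff₀ ha, sum_mul]
  refine le_trans (sum_le_sum (fun R hR => ?_))
    (sum_le_sum_of_subset_of_nonneg (filter_subset _ _) (fun R _ _ => ?_))
  · exact mul_le_mul_of_nonneg_left (mem_filter.1 hR).2 (wt_nonneg hq0 hq1 R)
  · exact mul_nonneg (wt_nonneg hq0 hq1 R) (hf R)

theorem sum_sub (T : Finset V) (q : ℝ) :
    ∑ R : Finset V, (if T ⊆ R then q ^ R.card * (1 - q) ^ (Fintype.card V - R.card) else 0) =
      q ^ T.card := by
  have := moment T ∅ (disjoint_empty_right T) q 1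
  simpa using this

/-- the expected number of the `z ∈ Z` with `T z ⊆ R` -/
theorem markov_count {ι : Type} [DecidableEq ι] {q : ℝ} (hq0 : 0 ≤ q) (hq1 : q ≤ 1)
    (Z : Finset ι) (T : ι → Finset V) (k : ℕ) (hT : ∀ z ∈ Z, (T z).card = k) {a : ℝ} (ha : 0 < a) :
    rp q (fun R => a ≤ ((Z.filter fun z => T z ⊆ R).card : ℝ)) ≤ Z.card * q ^ k / a := by
  classical
  refine (markov hq0 hq1 (fun R => ((Z.filter fun z => T z ⊆ R).card : ℝ))
    (fun R => Nat.cast_nonneg _) ha).trans (le_of_eq ?_)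
  congr 1
  have h1 : ∀ R : Finset V, q ^ R.card * (1 - q) ^ (Fintype.card V - R.card) *
      ((Z.filter fun z => T z ⊆ R).card : ℝ) =
      ∑ z ∈ Z, (if T z ⊆ R then q ^ R.card * (1 - q) ^ (Fintype.card V - R.card) else 0) := by
    intro R
    rw [← sum_filter, sum_const, nsmul_eq_mul, mul_comm]
  simp_rw [h1]
  rw [sum_comm]
  rw [sum_congr rfl fun z hz => by rw [sum_sub, hT z hz], sum_const, nsmul_eq_mul]

end gen

variable {p : ℕ} [hpf : Fact p.Prime]

/-- the points of a progression -/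
noncomputable def pts (k : ℕ) {n : ℕ} (z : (Fin n → ZMod p) × (Fin n → ZMod p)) :
    Finset (Fin n → ZMod p) := by
  classical
  exact (range k).image fun i => z.1 + i • z.2

theorem pts_sub {k n : ℕ} {z : (Fin n → ZMod p) × (Fin n → ZMod p)} {A : Finset (Fin n → ZMod p)} :
    pts k z ⊆ A ↔ ∀ i < k, z.1 + i • z.2 ∈ A := by
  classical
  unfold pts
  rw [image_subset_iff]
  simp

theorem pts_card {k n : ℕ} (hkp : k ≤ p) {z : (Fin n → ZMod p) × (Fin n → ZMod p)}
    (hz : z.2 ≠ 0) : (pts k z).card = k := by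
  classical
  unfold pts
  rw [card_image_of_injOn, card_range]
  intro i hi j hj h
  exact smul_inj hkp hz (mem_range.1 (mem_coe.1 hi)) (mem_range.1 (mem_coe.1 hj)) h

open Classical in
theorem aps_inter {k n : ℕ} (R D : Finset (Fin n → ZMod p)) :
    aps k (R ∩ D) = (aps k D).filter fun z => pts k z ⊆ R := by
  ext z
  rw [mem_filter, mem_aps, mem_aps, pts_sub]
  constructor
  · rintro ⟨h1, h2⟩
    exact ⟨⟨h1, fun i hi => (mem_inter.1 (h2 i hi)).2⟩, fun i hi => (mem_inter.1 (h2 i hi)).1⟩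
  · rintro ⟨⟨h1, h2⟩, h3⟩
    exact ⟨h1, fun i hi => mem_inter.2 ⟨h3 i hi, h2 i hi⟩⟩

/-- the set `B × F_p^t` -/
theorem block {k : ℕ} (hk : 1 ≤ k) (m t : ℕ) : ∃ D : Finset (Fin (m + t) → ZMod p),
    D.card = r k p m * p ^ t ∧ (aps k D).card ≤ D.card * (p ^ t - 1) := by
  classical
  obtain ⟨B, hB, hB'⟩ := exists_r (p := p) hk m
  set D : Finset (Fin (m + t) → ZMod p) :=
    (B ×ˢ (univ : Finset (Fin t → ZMod p))).map (Fin.appendEquiv m t).toEmbedding with hD
  have hcard : D.card = r k p m * p ^ t := by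
    rw [hD, card_map, card_product, hB', card_univ, card_V]
  refine ⟨D, hcard, ?_⟩
  have h1 : ∀ z ∈ aps k D, ∃ v : Fin t → ZMod p, v ≠ 0 ∧ z.2 = Fin.appendEquiv m t (0, v) := by
    intro z hz
    obtain ⟨hz1, hz2⟩ := mem_aps.1 hz
    obtain ⟨x, y⟩ := z
    obtain ⟨⟨x1, x2⟩, rfl⟩ := (Fin.appendEquiv m t).surjective x
    obtain ⟨⟨y1, y2⟩, rfl⟩ := (Fin.appendEquiv m t).surjective y
    have hadd : ∀ i : ℕ, Fin.appendEquiv m t (x1, x2) + i • Fin.appendEquiv m t (y1, y2) =
        Fin.appendEquiv m t (x1 + i • y1, x2 + i • y2) := by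
      intro i
      funext j
      refine Fin.addCases (fun j => ?_) (fun j => ?_) j <;> simp [Fin.appendEquiv]
    have h' : ∀ i < k, x1 + i • y1 ∈ B := by
      intro i hi
      have := hz2 i hi
      simp only at this
      rw [hadd, hD, mem_map_equiv, Equiv.symm_apply_apply, mem_product] at this
      exact this.1
    have e1 := hB x1 y1 h'
    refine ⟨y2, ?_, by rw [e1]⟩
    rintro rfl
    apply hz1
    simp only
    rw [e1]
    funext j
    refine Fin.addCases (fun j => ?_) (fun j => ?_) j <;> simp [Fin.appendEquiv]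
  have h2 : aps k D ⊆ (D ×ˢ ((univ : Finset (Fin t → ZMod p)).erase 0)).image
      (fun z => (z.1, Fin.appendEquiv m t (0, z.2))) := by
    intro z hz
    obtain ⟨v, hv, hv'⟩ := h1 z hz
    rw [mem_image]
    refine ⟨(z.1, v), mem_product.2 ⟨?_, mem_erase.2 ⟨hv, mem_univ _⟩⟩, ?_⟩
    · have := (mem_aps.1 hz).2 0 (by omega)
      simpa using this
    · exact Prod.ext rfl hv'.symm
  calc (aps k D).card ≤ _ := card_le_card h2
    _ ≤ _ := card_image_le
    _ = D.card * (p ^ t - 1) := by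
      rw [card_product, card_erase_of_mem (mem_univ _), card_univ, card_V]

/-- large progression-free subsets of random sets -/
theorem lower_event {k : ℕ} (hk : 1 ≤ k) (hkp : k ≤ p) (m t : ℕ) {q : ℝ} (hq0 : 0 < q)
    (hq1 : q ≤ 1) (hr : 1 ≤ r k p m) :
    rp q (fun S : Finset (Fin (m + t) → ZMod p) =>
      ¬ ∃ A ⊆ S, APFree k p (m + t) A ∧ q * (r k p m * (p : ℝ) ^ t) / 4 ≤ A.card) ≤
      Real.exp (-(q * (r k p m * (p : ℝ) ^ t) / 16)) + 4 * q ^ (k - 1) * ((p : ℝ) ^ t - 1) := by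
  classical
  obtain ⟨D, hD, hD'⟩ := block (p := p) hk m t
  have hp1 : (1 : ℝ) ≤ p := by exact_mod_cast hpf.out.one_lt.le
  have hDr : (D.card : ℝ) = r k p m * (p : ℝ) ^ t := by
    rw [hD]; push_cast; ring
  have hr' : (1 : ℝ) ≤ r k p m := by exact_mod_cast hr
  have hpt : (1 : ℝ) ≤ (p : ℝ) ^ t := one_le_pow₀ hp1
  have hD0 : (0 : ℝ) < D.card := by rw [hDr]; positivity
  have haps : ((aps k D).card : ℝ) ≤ D.card * ((p : ℝ) ^ t - 1) := by
    have : 1 ≤ p ^ t := Nat.one_le_pow _ _ hpf.out.pos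
    have h2 : ((aps k D).card : ℝ) ≤ ((D.card * (p ^ t - 1) : ℕ) : ℝ) := by exact_mod_cast hD'
    rw [Nat.cast_mul, Nat.cast_sub this] at h2
    push_cast at h2
    exact h2
  rw [← hDr]
  set a : ℝ := q * D.card / 4 with ha
  have ha0 : 0 < a := by positivity
  have h1 : rp q (fun S : Finset (Fin (m + t) → ZMod p) =>
      ¬ ∃ A ⊆ S, APFree k p (m + t) A ∧ a ≤ A.card) ≤
      rp q (fun S => ((S ∩ D).card : ℝ) < q * D.card / 2 ∨
        a ≤ (((aps k D).filter fun z => pts k z ⊆ S).card : ℝ)) := by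
    apply rp_mono hq0.le hq1
    intro S hS
    by_contra hcon
    push Not at hcon
    obtain ⟨h2, h3⟩ := hcon
    apply hS
    rw [← aps_inter] at h3
    refine ⟨(S ∩ D) \ (aps k (S ∩ D)).image Prod.fst, sdiff_subset.trans inter_subset_left, ?_, ?_⟩
    · intro x y h
      by_contra hy
      have h4 : (x, y) ∈ aps k (S ∩ D) := mem_aps.2 ⟨hy, fun i hi => (mem_sdiff.1 (h i hi)).1⟩
      have h5 := (mem_sdiff.1 (h 0 (by omega))).2
      apply h5
      rw [mem_image]
      exact ⟨(x, y), h4, by simp⟩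
    · have h4 : (S ∩ D).card ≤ ((S ∩ D) \ (aps k (S ∩ D)).image Prod.fst).card +
          ((aps k (S ∩ D)).image Prod.fst).card := card_le_card_sdiff_add_card
      have h5 : ((aps k (S ∩ D)).image Prod.fst).card ≤ (aps k (S ∩ D)).card := card_image_le
      have h6 : ((S ∩ D).card : ℝ) ≤ (((S ∩ D) \ (aps k (S ∩ D)).image Prod.fst).card : ℝ) +
          ((aps k (S ∩ D)).card : ℝ) := by exact_mod_cast h4.trans (by omega)
      linarith
  refine h1.trans ((rp_or hq0.le hq1 _ _).trans ?_)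
  apply add_le_add
  · refine (lower D hq0.le hq1 (l := 1 / 4) (by norm_num) (by norm_num)).trans ?_
    apply Real.exp_le_exp.2
    nlinarith [mul_pos hq0 hD0]
  · refine (markov_count hq0.le hq1 (aps k D) (pts k) k
      (fun z hz => pts_card hkp (mem_aps.1 hz).1) ha0).trans ?_
    rw [div_le_iff₀ ha0]
    have hqk : q ^ k = q ^ (k - 1) * q := by
      rw [← pow_succ]
      congr 1
      omega
    calc ((aps k D).card : ℝ) * q ^ k ≤ (D.card * ((p : ℝ) ^ t - 1)) * q ^ k :=
          mul_le_mul_of_nonneg_right haps (by positivity)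
      _ = 4 * q ^ (k - 1) * ((p : ℝ) ^ t - 1) * a := by
          rw [hqk, ha]
          ring

end Pool.Agent.L5helper45.CT
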