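import Pool.Agent.L5helper45.CT.RandUp

set_option autoImplicit false

/-! # Random subsets of `F_p^n`: lower bound (helper45) -/

namespace Pool.Agent.L5helper45.CT

open Finset
open Pool.Agent.R535.SP (rp rp_eq wt_nonneg rp_mono rp_union moment tail lower rp_true rp_not)

variable {p : ℕ} [hpf : Fact p.Prime]

theorem lrate_ge {k : ℕ} (hk : 3 ≤ k) (hkp : k ≤ p) {ε β : ℝ} (hε1 : ε ≤ 1 / 2)
    (hβ0 : 0 ≤ β) (hβ1 : β ≤ 1 - ε) : ε * Real.log p ≤ lrate k p β := by
  have hp1 : (1 : ℝ) < p := by exact_mod_cast hpf.out.one_lt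
  have hL : 0 < Real.log p := Real.log_pos hp1
  have hk3 : (3 : ℝ) ≤ k := by exact_mod_cast hk
  have hk0 : (0 : ℝ) < k := by linarith
  have h4 := norm_le_lam (p := p) hk hkp
  have h5 : Real.log p / 2 ≤ Real.log (lam k p) := by
    refine le_trans ?_ h4
    have : 1 / (k : ℝ) ≤ 1 / 2 := by
      apply one_div_le_one_div_of_le (by norm_num)
      linarith
    nlinarith
  unfold lrate
  rcases le_total (((k : ℝ) - 1) * β) 1 with h | h
  · rw [min_eq_right h]
    have e1 : (1 - ((k : ℝ) - 1) * β) * (Real.log p / 2) ≤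
        (1 - ((k : ℝ) - 1) * β) * Real.log (lam k p) :=
      mul_le_mul_of_nonneg_left h5 (by linarith)
    have e2 : 2 * β ≤ ((k : ℝ) - 1) * β := mul_le_mul_of_nonneg_right (by linarith) hβ0
    nlinarith
  · rw [min_eq_left h]
    nlinarith

theorem lower_main {k : ℕ} (hk : 3 ≤ k) (hkp : k ≤ p) {ε : ℝ} (hε : 0 < ε) (hε1 : ε ≤ 1 / 2) :
    ∃ n₀ : ℕ, ∀ n : ℕ, n₀ ≤ n → ∀ β : ℝ, 0 ≤ β → β ≤ 1 - ε →
      rp (Real.exp (-(β * n * Real.log p))) (fun S : Finset (Fin n → ZMod p) =>
        ¬ ∃ A ⊆ S, APFree k p n A ∧ Real.exp (n * (lrate k p β - ε)) ≤ (A.card : ℝ)) ≤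
        Real.exp (-(n : ℝ)) + 4 * Real.exp (-(n * (ε / 4))) := by
  have hp0 : (0 : ℝ) < p := by exact_mod_cast hpf.out.pos
  have hp1 : (1 : ℝ) < p := by exact_mod_cast hpf.out.one_lt
  have hp3 : (3 : ℝ) ≤ p := by exact_mod_cast hk.trans hkp
  have hL1 : 1 ≤ Real.log p := by
    rw [Real.le_log_iff_exp_le hp0]
    have := Real.exp_one_lt_d9
    linarith
  set L : ℝ := Real.log p with hLdef
  have hL : 0 < L := by linarith
  have hk3 : (3 : ℝ) ≤ k := by exact_mod_cast hk
  have hk0 : (0 : ℝ) < k := by linarith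
  have hk1 : (0 : ℝ) < (k : ℝ) - 1 := by linarith
  have hl : 0 < lam k p := lt_of_lt_of_le one_pos (one_le_lam (by omega))
  set ℓ : ℝ := Real.log (lam k p) with hℓ
  have hℓ0 : 0 ≤ ℓ := Real.log_nonneg (one_le_lam (by omega))
  have hℓL : ℓ ≤ L := Real.log_le_log hl (lam_le k)
  obtain ⟨x, hx0, hxL, hx1, hx2, hx3, c, hc, hgr⟩ := choose_exp (p := p) hk hkp
    (ε := ε / 4) (by positivity)
  -- large n
  have hA : Filter.Tendsto (fun n : ℕ => Real.exp ((n : ℝ) * (ε / 4))) Filter.atTop Filter.atTop :=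
    Real.tendsto_exp_atTop.comp (tendsto_natCast_atTop_atTop.atTop_mul_const (by positivity))
  set c' : ℝ := c * Real.exp (-L) with hc'
  have hc'0 : 0 < c' := by positivity
  obtain ⟨n₀, hn₀⟩ := Filter.eventually_atTop.1
    (hA.eventually_ge_atTop (4 / c' + 1 + 64 / (ε * c')))
  refine ⟨n₀, fun n hn β hβ0 hβ1 => ?_⟩
  have hbig := hn₀ n hn
  have hn0 : (0 : ℝ) ≤ n := Nat.cast_nonneg _
  set q : ℝ := Real.exp (-(β * n * L)) with hq
  have hq0 : 0 < q := Real.exp_pos _
  have hq1 : q ≤ 1 := by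
    rw [hq]
    apply Real.exp_le_one_iff.2
    have : 0 ≤ β * n * L := by positivity
    linarith
  set δ : ℝ := ε / (4 * L) with hδ
  have hδ0 : 0 < δ := by positivity
  have hδL : δ * L = ε / 4 := by rw [hδ]; field_simp
  set τ : ℝ := min 1 (((k : ℝ) - 1) * β) with hτ
  have hτ1 : τ ≤ 1 := min_le_left _ _
  have hτβ : τ ≤ ((k : ℝ) - 1) * β := min_le_right _ _
  have hτ0 : 0 ≤ τ := le_min zero_le_one (by positivity)
  have hlr : lrate k p β = (1 - τ) * ℓ + (τ - β) * L := rfl
  have hlrge : ε ≤ lrate k p β := by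
    have := lrate_ge (p := p) hk hkp hε1 hβ0 hβ1
    rw [← hLdef] at this
    nlinarith
  obtain ⟨t, ht⟩ : ∃ t : ℕ, t = ⌊(τ - δ) * n⌋₊ := ⟨_, rfl⟩
  have ht1 : (τ - δ) * n < t + 1 := by
    rw [ht]
    exact Nat.lt_floor_add_one _
  have ht2 : 1 ≤ t → (t : ℝ) ≤ (τ - δ) * n := by
    intro h
    rw [ht] at h ⊢
    have h2 : 1 ≤ (τ - δ) * n := (Nat.one_le_floor_iff _).1 h
    exact Nat.floor_le (by linarith)
  have htn : t ≤ n := by
    rcases Nat.eq_zero_or_pos t with h | h
    · omega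
    · have h2 := ht2 h
      have h3 : (τ - δ) * n ≤ 1 * n := mul_le_mul_of_nonneg_right (by linarith) hn0
      have h4 : (t : ℝ) ≤ n := by linarith
      exact_mod_cast h4
  obtain ⟨m, hm⟩ : ∃ m : ℕ, n = m + t := ⟨n - t, by omega⟩
  -- the size
  have hsize : c' * Real.exp (n * (lrate k p β - ε / 2)) ≤ q * (r k p m * (p : ℝ) ^ t) := by
    have e1 : c * Real.exp (m * x) ≤ r k p m := by
      rw [Real.exp_nat_mul]
      exact hgr m
    have e2 : (p : ℝ) ^ t = Real.exp (t * L) := by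
      rw [Real.exp_nat_mul, hLdef, Real.exp_log hp0]
    have e3 : q * (c * Real.exp (m * x) * Real.exp (t * L)) ≤ q * (r k p m * (p : ℝ) ^ t) := by
      rw [e2]
      gcongr
    refine le_trans ?_ e3
    have e4 : q * (c * Real.exp (m * x) * Real.exp (t * L)) =
        c * Real.exp (-(β * n * L) + m * x + t * L) := by
      rw [hq, Real.exp_add, Real.exp_add]
      ring
    rw [e4, hc', mul_assoc, ← Real.exp_add]
    apply mul_le_mul_of_nonneg_left _ hc.le
    apply Real.exp_le_exp.2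
    have hmn : (m : ℝ) = n - t := by
      rw [hm]; push_cast; ring
    rw [hmn, hlr]
    have e5 : 0 ≤ L - x := by linarith
    have e6 : L - x ≤ L := by linarith
    have e7 : ((τ - δ) * n - 1) * (L - x) ≤ t * (L - x) :=
      mul_le_mul_of_nonneg_right (by linarith) e5
    have e8 : (1 - τ) * ℓ ≤ (1 - τ) * x + ε / 4 := by
      have : (1 - τ) * ℓ ≤ (1 - τ) * (x + ε / 4) :=
        mul_le_mul_of_nonneg_left (by linarith) (by linarith)
      have h9 : (1 - τ) * (ε / 4) ≤ ε / 4 := mul_le_of_le_one_left (by positivity) (by linarith)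
      linarith
    have e9 := mul_le_mul_of_nonneg_left e8 hn0
    have e10 : δ * n * (L - x) ≤ n * (ε / 4) := by
      calc δ * n * (L - x) ≤ δ * n * L := mul_le_mul_of_nonneg_left e6 (by positivity)
        _ = n * (δ * L) := by ring
        _ = _ := by rw [hδL]
    nlinarith
  -- comparison
  have hy : c' * Real.exp (n * (lrate k p β - ε / 2)) = 
      c' * Real.exp (n * (lrate k p β - ε)) * Real.exp (n * (ε / 2)) := by
    rw [show (n : ℝ) * (lrate k p β - ε / 2) = n * (lrate k p β - ε) + n * (ε / 2) by ring,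
      Real.exp_add]
    ring
  have hz0 : 0 < Real.exp (n * (ε / 4)) := Real.exp_pos _
  have hsq : Real.exp (n * (ε / 2)) = Real.exp (n * (ε / 4)) * Real.exp (n * (ε / 4)) := by
    rw [← Real.exp_add]
    ring_nf
  have hb1 : 4 / c' ≤ Real.exp (n * (ε / 4)) := by
    have : 0 ≤ 64 / (ε * c') := by positivity
    linarith
  have hb2 : 64 / (ε * c') ≤ Real.exp (n * (ε / 4)) := by
    have : 0 ≤ 4 / c' := by positivity
    linarith
  have hb3 : 1 ≤ Real.exp (n * (ε / 4)) := Real.one_le_exp (by positivity)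
  have hcard : Real.exp (n * (lrate k p β - ε)) ≤ q * (r k p m * (p : ℝ) ^ t) / 4 := by
    rw [le_div_iff₀ (by norm_num)]
    refine le_trans ?_ hsize
    rw [hy, hsq]
    have e1 : 4 ≤ c' * Real.exp (n * (ε / 4)) := by
      rw [div_le_iff₀ hc'0] at hb1
      linarith
    have e2 : 4 ≤ c' * (Real.exp (n * (ε / 4)) * Real.exp (n * (ε / 4))) := by
      nlinarith
    have e3 := mul_le_mul_of_nonneg_left e2 (Real.exp_pos (n * (lrate k p β - ε))).le
    linarith
  have hprob : (n : ℝ) ≤ q * (r k p m * (p : ℝ) ^ t) / 16 := by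
    rw [le_div_iff₀ (by norm_num)]
    refine le_trans ?_ hsize
    have e1 : Real.exp (n * (ε / 2)) ≤ Real.exp (n * (lrate k p β - ε / 2)) :=
      Real.exp_le_exp.2 (mul_le_mul_of_nonneg_left (by linarith) hn0)
    refine le_trans ?_ (mul_le_mul_of_nonneg_left e1 hc'0.le)
    rw [hsq]
    have e2 : (n : ℝ) * (ε / 4) ≤ Real.exp (n * (ε / 4)) := by
      have := Real.add_one_le_exp ((n : ℝ) * (ε / 4))
      linarith
    have e3 : 64 / ε ≤ c' * Real.exp (n * (ε / 4)) := by
      have : 64 / (ε * c') = 64 / ε / c' := by rw [div_div]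
      rw [this, div_le_iff₀ hc'0] at hb2
      linarith
    calc (n : ℝ) * 16 = (64 / ε) * (n * (ε / 4)) := by field_simp; ring
      _ ≤ (c' * Real.exp (n * (ε / 4))) * Real.exp (n * (ε / 4)) :=
          mul_le_mul e3 e2 (by positivity) (by positivity)
      _ = _ := by ring
  have hsecond : q ^ (k - 1) * ((p : ℝ) ^ t - 1) ≤ Real.exp (-(n * (ε / 4))) := by
    rcases Nat.eq_zero_or_pos t with h | h
    · rw [h, pow_zero, sub_self, mul_zero]
      exact (Real.exp_pos _).le
    · have h2 := ht2 h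
      have e2 : (p : ℝ) ^ t = Real.exp (t * L) := by
        rw [Real.exp_nat_mul, hLdef, Real.exp_log hp0]
      calc q ^ (k - 1) * ((p : ℝ) ^ t - 1) ≤ q ^ (k - 1) * (p : ℝ) ^ t := by
            apply mul_le_mul_of_nonneg_left _ (by positivity)
            linarith
        _ = Real.exp (((k - 1 : ℕ) : ℝ) * (-(β * n * L)) + t * L) := by
            rw [e2, hq, ← Real.exp_nat_mul, ← Real.exp_add]
        _ ≤ _ := by
            apply Real.exp_le_exp.2
            rw [Nat.cast_sub (by omega)]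
            push_cast
            have e3 : (t : ℝ) * L ≤ (((k : ℝ) - 1) * β - δ) * n * L := by
              apply mul_le_mul_of_nonneg_right _ hL.le
              refine h2.trans (mul_le_mul_of_nonneg_right (by linarith) hn0)
            have e4 : (((k : ℝ) - 1) * β - δ) * n * L =
                ((k : ℝ) - 1) * (β * n * L) - n * (δ * L) := by ring
            rw [e4, hδL] at e3
            linarith
  clear_value q
  subst hm
  have hmain := lower_event (p := p) (by omega : 1 ≤ k) hkp m t hq0 hq1 (one_le_r (by omega) m)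
  refine le_trans (rp_mono hq0.le hq1 ?_) (hmain.trans (add_le_add ?_ ?_))
  · intro S hS hcon
    apply hS
    obtain ⟨A, hAS, hA, hAc⟩ := hcon
    exact ⟨A, hAS, hA, hcard.trans hAc⟩
  · apply Real.exp_le_exp.2
    linarith
  · linarith

end Pool.Agent.L5helper45.CT
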