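import Pool.Agent.L5helper45.CT.Rand
import Pool.Agent.L5helper45.CT.Lam

set_option autoImplicit false

/-! # Random subsets of `F_p^n`: upper bound (helper45) -/

namespace Pool.Agent.L5helper45.CT

open Finset
open Pool.Agent.R535.SP (rp rp_eq wt_nonneg rp_mono rp_union moment tail lower rp_true rp_not)

variable {p : ℕ} [hpf : Fact p.Prime]

/-- logarithm of the growth rate for density `p^(-β n)` -/
noncomputable def lrate (k p : ℕ) (β : ℝ) : ℝ :=
  (1 - min 1 (((k : ℝ) - 1) * β)) * Real.log (lam k p) +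
    (min 1 (((k : ℝ) - 1) * β) - β) * Real.log p

theorem upper_event {k n : ℕ} {𝒞 : Finset (Finset (Fin n → ZMod p))} {C η K q : ℝ}
    (h1 : (𝒞.card : ℝ) ≤ Real.exp (C * r k p n * K ^ (-η)))
    (h2 : ∀ U ∈ 𝒞, (U.card : ℝ) ≤ K * r k p n)
    (h3 : ∀ A : Finset (Fin n → ZMod p), APFree k p n A → ∃ U ∈ 𝒞, A ⊆ U)
    (hC : 0 ≤ C) (hq0 : 0 < q) (hq1 : q ≤ 1) (hK : K ^ (-η) ≤ q * K) :
    rp q (fun S : Finset (Fin n → ZMod p) =>
      ∃ A ⊆ S, APFree k p n A ∧ (C + 2) * (q * K * r k p n) + n ≤ (A.card : ℝ)) ≤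
      Real.exp (-(n : ℝ)) := by
  classical
  set a : ℝ := (C + 2) * (q * K * r k p n) + n with ha
  have hr0 : (0 : ℝ) ≤ r k p n := Nat.cast_nonneg _
  have e1 : rp q (fun S : Finset (Fin n → ZMod p) =>
      ∃ A ⊆ S, APFree k p n A ∧ a ≤ (A.card : ℝ)) ≤
      rp q (fun S => ∃ U ∈ 𝒞, (∅ ⊆ S ∧ a ≤ ((S ∩ U).card : ℝ))) := by
    apply rp_mono hq0.le hq1
    rintro S ⟨A, hAS, hA, hAc⟩
    obtain ⟨U, hU, hAU⟩ := h3 A hA
    refine ⟨U, hU, empty_subset _, hAc.trans ?_⟩
    exact_mod_cast card_le_card (subset_inter hAS hAU)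
  refine e1.trans ((rp_union hq0.le hq1 𝒞 _).trans ?_)
  have e2 : ∀ U ∈ 𝒞, rp q (fun S : Finset (Fin n → ZMod p) => ∅ ⊆ S ∧ a ≤ ((S ∩ U).card : ℝ)) ≤
      Real.exp (2 * (q * K * r k p n) - a) := by
    intro U hU
    refine (tail ∅ U (disjoint_empty_left _) hq0.le hq1 (l := 1) zero_le_one le_rfl).trans ?_
    rw [card_empty, pow_zero, one_mul]
    apply Real.exp_le_exp.2
    have := mul_le_mul_of_nonneg_left (h2 U hU) hq0.le
    linarith
  refine (sum_le_sum e2).trans ?_
  rw [sum_const, nsmul_eq_mul]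
  calc (𝒞.card : ℝ) * Real.exp (2 * (q * K * r k p n) - a) ≤
        Real.exp (C * r k p n * K ^ (-η)) * Real.exp (2 * (q * K * r k p n) - a) :=
        mul_le_mul_of_nonneg_right h1 (Real.exp_pos _).le
    _ = Real.exp (C * r k p n * K ^ (-η) + (2 * (q * K * r k p n) - a)) := (Real.exp_add _ _).symm
    _ ≤ Real.exp (-(n : ℝ)) := by
        apply Real.exp_le_exp.2
        have := mul_le_mul_of_nonneg_left hK (mul_nonneg hC hr0)
        rw [ha]
        linarith

theorem card_event {k n : ℕ} {q : ℝ} (hq0 : 0 < q) (hq1 : q ≤ 1) :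
    rp q (fun S : Finset (Fin n → ZMod p) =>
      ∃ A ⊆ S, APFree k p n A ∧ 2 * (q * (p : ℝ) ^ n) + n ≤ (A.card : ℝ)) ≤
      Real.exp (-(n : ℝ)) := by
  classical
  have e1 : rp q (fun S : Finset (Fin n → ZMod p) =>
      ∃ A ⊆ S, APFree k p n A ∧ 2 * (q * (p : ℝ) ^ n) + n ≤ (A.card : ℝ)) ≤
      rp q (fun S : Finset (Fin n → ZMod p) =>
        ∅ ⊆ S ∧ 2 * (q * (p : ℝ) ^ n) + n ≤ ((S ∩ univ).card : ℝ)) := by
    apply rp_mono hq0.le hq1
    rintro S ⟨A, hAS, -, hAc⟩
    refine ⟨empty_subset _, hAc.trans ?_⟩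
    rw [inter_univ]
    exact_mod_cast card_le_card hAS
  refine e1.trans ?_
  refine (tail (V := Fin n → ZMod p) ∅ univ (disjoint_empty_left _) hq0.le hq1 (l := 1)
    zero_le_one le_rfl).trans ?_
  rw [card_empty, pow_zero, one_mul, card_univ, card_V]
  apply Real.exp_le_exp.2
  push_cast
  linarith

/-- choice of the exponents -/
theorem choose_exp {k : ℕ} (hk : 3 ≤ k) (hkp : k ≤ p) {ε : ℝ} (hε : 0 < ε) :
    ∃ x : ℝ, 0 < x ∧ x < Real.log p ∧ (1 - 1 / (k : ℝ)) * Real.log p ≤ x ∧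
      Real.log (lam k p) - ε ≤ x ∧ x ≤ Real.log (lam k p) ∧
      ∃ c : ℝ, 0 < c ∧ ∀ t : ℕ, c * Real.exp x ^ t ≤ r k p t := by
  have hp1 : (1 : ℝ) < p := by exact_mod_cast hpf.out.one_lt
  have hL : 0 < Real.log p := Real.log_pos hp1
  have hk3 : (3 : ℝ) ≤ k := by exact_mod_cast hk
  have hk0 : (0 : ℝ) < k := by linarith
  have hl : 0 < lam k p := lt_of_lt_of_le one_pos (one_le_lam (by omega))
  have h1 : 0 < 1 - 1 / (k : ℝ) := by
    rw [sub_pos, div_lt_one hk0]
    linarith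
  have h1' : 1 - 1 / (k : ℝ) < 1 := by
    have : 0 < 1 / (k : ℝ) := by positivity
    linarith
  have h2 : (1 - 1 / (k : ℝ)) * Real.log p < Real.log p := by nlinarith
  have h3 : Real.log (lam k p) ≤ Real.log p := Real.log_le_log hl (lam_le k)
  have h4 := norm_le_lam (p := p) hk hkp
  have h5 : 0 < (1 - 1 / (k : ℝ)) * Real.log p := mul_pos h1 hL
  refine ⟨max ((1 - 1 / (k : ℝ)) * Real.log p) (Real.log (lam k p) - ε),
    lt_of_lt_of_le h5 (le_max_left _ _), max_lt h2 (by linarith), le_max_left _ _, le_max_right _ _,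
    max_le h4 (by linarith), ?_⟩
  apply growth_x hk hkp (h5.le.trans (le_max_left _ _))
  rcases le_total ((1 - 1 / (k : ℝ)) * Real.log p) (Real.log (lam k p) - ε) with h | h
  · right
    rw [max_eq_right h]
    linarith
  · left
    rw [max_eq_left h]

/-- `A e^(ε n / 2) + n ≤ e^(ε n)` for large `n` -/
theorem ev_exp {ε A : ℝ} (hε : 0 < ε) : ∃ n₀ : ℕ, ∀ n : ℕ, n₀ ≤ n →
    A * Real.exp (n * (ε / 2)) + n ≤ Real.exp (n * ε) := by
  have h1 : Filter.Tendsto (fun n : ℕ => Real.exp ((n : ℝ) * (ε / 2))) Filter.atTop Filter.atTop :=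
    Real.tendsto_exp_atTop.comp (tendsto_natCast_atTop_atTop.atTop_mul_const (by positivity))
  have h2 : Filter.Tendsto (fun n : ℕ => (n : ℝ) * (ε / 2)) Filter.atTop Filter.atTop :=
    tendsto_natCast_atTop_atTop.atTop_mul_const (by positivity)
  obtain ⟨n₀, hn₀⟩ := Filter.eventually_atTop.1 (h1.eventually_ge_atTop (|A| + 2 / ε))
  refine ⟨n₀, fun n hn => ?_⟩
  have h3 := hn₀ n hn
  set y : ℝ := Real.exp ((n : ℝ) * (ε / 2)) with hy
  have h4 : Real.exp (n * ε) = y * y := by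
    rw [hy, ← Real.exp_add]
    ring_nf
  have h5 : (n : ℝ) * (ε / 2) ≤ y := by
    have := Real.add_one_le_exp ((n : ℝ) * (ε / 2))
    linarith
  have h6 : (n : ℝ) ≤ y * (2 / ε) := by
    rw [mul_div_assoc', le_div_iff₀ hε]
    linarith
  have hy0 : 0 < y := Real.exp_pos _
  rw [h4]
  have h7 : A * y ≤ |A| * y := mul_le_mul_of_nonneg_right (le_abs_self A) hy0.le
  nlinarith

theorem upper_main {k : ℕ} (hk : 3 ≤ k) (hkp : k ≤ p) {ε : ℝ} (hε : 0 < ε) :
    ∃ n₀ : ℕ, ∀ n : ℕ, n₀ ≤ n → ∀ β : ℝ, 0 ≤ β → β ≤ 1 →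
      rp (Real.exp (-(β * n * Real.log p))) (fun S : Finset (Fin n → ZMod p) =>
        ∃ A ⊆ S, APFree k p n A ∧ Real.exp (n * (lrate k p β + ε)) ≤ (A.card : ℝ)) ≤
        Real.exp (-(n : ℝ)) := by
  have hp0 : (0 : ℝ) < p := by exact_mod_cast hpf.out.pos
  have hp1 : (1 : ℝ) < p := by exact_mod_cast hpf.out.one_lt
  have hL : 0 < Real.log p := Real.log_pos hp1
  set L : ℝ := Real.log p with hLdef
  have hk3 : (3 : ℝ) ≤ k := by exact_mod_cast hk
  have hk0 : (0 : ℝ) < k := by linarith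
  have hk1 : (0 : ℝ) < (k : ℝ) - 1 := by linarith
  have hl : 0 < lam k p := lt_of_lt_of_le one_pos (one_le_lam (by omega))
  set ℓ : ℝ := Real.log (lam k p) with hℓ
  have hℓ0 : 0 ≤ ℓ := Real.log_nonneg (one_le_lam (by omega))
  have hℓL : ℓ ≤ L := Real.log_le_log hl (lam_le k)
  obtain ⟨x, hx0, hxL, hx1, hx2, hx3, c, hc, hgr⟩ := choose_exp (p := p) hk hkp
    (ε := ε / (4 * ((k : ℝ) - 1))) (by positivity)
  -- the exponent `y = θ L`
  have hy : ((k : ℝ) - 1) * (L - x) < min L (((k : ℝ) - 1) * (L - ℓ) + ε / 2) := by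
    apply lt_min
    · have h1 : ((k : ℝ) - 1) * (L - x) ≤ ((k : ℝ) - 1) * (L / k) := by
        apply mul_le_mul_of_nonneg_left _ hk1.le
        have : (1 - 1 / (k : ℝ)) * L = L - L / k := by ring
        rw [← hLdef] at hx1
        linarith
      have h2 : ((k : ℝ) - 1) * (L / k) = L - L / k := by field_simp
      have h3 : 0 < L / k := by positivity
      linarith
    · have h1 : ((k : ℝ) - 1) * (L - x) ≤ ((k : ℝ) - 1) * (L - ℓ + ε / (4 * ((k : ℝ) - 1))) := by
        apply mul_le_mul_of_nonneg_left _ hk1.le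
        linarith
      have h2 : ((k : ℝ) - 1) * (L - ℓ + ε / (4 * ((k : ℝ) - 1))) =
          ((k : ℝ) - 1) * (L - ℓ) + ε / 4 := by
        field_simp
      linarith
  obtain ⟨y, hy1, hy2⟩ := exists_between hy
  have hy0 : 0 < y := lt_of_le_of_lt (mul_nonneg hk1.le (by linarith)) hy1
  have hyL : y < L := hy2.trans_le (min_le_left _ _)
  have hyε : y < ((k : ℝ) - 1) * (L - ℓ) + ε / 2 := hy2.trans_le (min_le_right _ _)
  set η : ℝ := L / y - 1 with hη
  have hη0 : 0 < η := by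
    rw [hη, sub_pos, one_lt_div hy0]
    exact hyL
  have hμ1 : 1 < Real.exp x := Real.one_lt_exp_iff.2 hx0
  have hμp : Real.exp x < p := by
    rw [← Real.exp_log hp0]
    exact Real.exp_lt_exp.2 hxL
  have hg : (1 + η) * ((k : ℝ) - 1) < Real.log p / Real.log (p / Real.exp x) := by
    rw [Real.log_div hp0.ne' (Real.exp_pos x).ne', Real.log_exp, ← hLdef, hη,
      lt_div_iff₀ (by linarith)]
    have : (1 + (L / y - 1)) * ((k : ℝ) - 1) * (L - x) = (L / y) * (((k : ℝ) - 1) * (L - x)) := by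
      ring
    rw [this]
    calc L / y * (((k : ℝ) - 1) * (L - x)) < L / y * y :=
          mul_lt_mul_of_pos_left hy1 (by positivity)
      _ = L := div_mul_cancel₀ _ hy0.ne'
  obtain ⟨K₁, C, hK₁, hC, hcont⟩ := fp_containers hk hkp hμ1 hμp hc hgr hη0 hg
  have hK₁0 : 0 < K₁ := by linarith
  obtain ⟨n₁, hn₁⟩ := ev_exp (A := (C + 2) * K₁) hε
  obtain ⟨n₂, hn₂⟩ := ev_exp (A := 2) hε
  refine ⟨max n₁ n₂, fun n hn β hβ0 hβ1 => ?_⟩
  set q : ℝ := Real.exp (-(β * n * L)) with hq
  have hq0 : 0 < q := Real.exp_pos _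
  have hn0 : (0 : ℝ) ≤ n := Nat.cast_nonneg _
  have hq1 : q ≤ 1 := by
    rw [hq]
    apply Real.exp_le_one_iff.2
    have : 0 ≤ β * n * L := by positivity
    linarith
  by_cases hβ : ((k : ℝ) - 1) * β ≤ 1
  · -- containers
    set K : ℝ := K₁ * Real.exp (β * n * y) with hK
    have hexp1 : 1 ≤ Real.exp (β * n * y) := Real.one_le_exp (by positivity)
    have hKK₁ : K₁ ≤ K := le_mul_of_one_le_right hK₁0.le hexp1
    have hK0 : 0 < K := by linarith
    obtain ⟨𝒞, h1, h2, h3⟩ := hcont n K hKK₁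
    have hKq : K ^ (-η) ≤ q * K := by
      have e1 : K ^ (-η) ≤ Real.exp (β * n * y) ^ (-η) :=
        Real.rpow_le_rpow_of_nonpos (Real.exp_pos _) (le_mul_of_one_le_left (Real.exp_pos _).le hK₁)
          (by linarith)
      have e2 : Real.exp (β * n * y) ^ (-η) = q * Real.exp (β * n * y) := by
        rw [← Real.exp_mul, hq, ← Real.exp_add, hη]
        congr 1
        field_simp
        ring
      rw [e2] at e1
      refine e1.trans (mul_le_mul_of_nonneg_left ?_ hq0.le)
      exact le_mul_of_one_le_left (Real.exp_pos _).le hK₁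
    have h4 := upper_event h1 h2 h3 hC.le hq0 hq1 hKq
    refine le_trans (rp_mono hq0.le hq1 ?_) h4
    rintro S ⟨A, hAS, hA, hAc⟩
    refine ⟨A, hAS, hA, le_trans ?_ hAc⟩
    have hrl : (r k p n : ℝ) ≤ Real.exp (n * ℓ) := by
      rw [Real.exp_nat_mul, hℓ, Real.exp_log hl]
      exact r_le_lam n
    have hlr : lrate k p β = ℓ - β * L + (((k : ℝ) - 1) * β) * (L - ℓ) := by
      unfold lrate
      rw [min_eq_right hβ, ← hℓ, ← hLdef]
      ring
    have hlr0 : 0 ≤ lrate k p β := by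
      have e1 : 0 ≤ (1 - ((k : ℝ) - 1) * β) * ℓ := mul_nonneg (by linarith) hℓ0
      have e2 : 0 ≤ (((k : ℝ) - 1) * β - β) * L := by
        have : ((k : ℝ) - 1) * β - β = ((k : ℝ) - 2) * β := by ring
        rw [this]
        exact mul_nonneg (mul_nonneg (by linarith) hβ0) hL.le
      rw [hlr]
      linarith
    have h5 : q * K * r k p n ≤ K₁ * Real.exp (n * (lrate k p β + ε / 2)) := by
      calc q * K * r k p n ≤ q * K * Real.exp (n * ℓ) :=
            mul_le_mul_of_nonneg_left hrl (by positivity)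
        _ = K₁ * Real.exp (-(β * n * L) + β * n * y + n * ℓ) := by
            rw [hq, hK, Real.exp_add, Real.exp_add]
            ring
        _ ≤ K₁ * Real.exp (n * (lrate k p β + ε / 2)) := by
            apply mul_le_mul_of_nonneg_left _ hK₁0.le
            apply Real.exp_le_exp.2
            rw [hlr]
            have e1 : β * y ≤ β * (((k : ℝ) - 1) * (L - ℓ)) + ε / 2 := by
              have e3 : β * y ≤ β * (((k : ℝ) - 1) * (L - ℓ) + ε / 2) :=
                mul_le_mul_of_nonneg_left hyε.le hβ0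
              have e4 : β * (ε / 2) ≤ ε / 2 := mul_le_of_le_one_left (by positivity) hβ1
              linarith
            have e2 := mul_le_mul_of_nonneg_left e1 hn0
            linarith
    have h6 := hn₁ n ((le_max_left _ _).trans hn)
    have h7 : 1 ≤ Real.exp (n * lrate k p β) := Real.one_le_exp (by positivity)
    calc (C + 2) * (q * K * r k p n) + n ≤
          (C + 2) * (K₁ * Real.exp (n * (lrate k p β + ε / 2))) + n := by
          gcongr
      _ ≤ (C + 2) * (K₁ * Real.exp (n * (lrate k p β + ε / 2))) + Real.exp (n * lrate k p β) * n := by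
          nlinarith
      _ = Real.exp (n * lrate k p β) * ((C + 2) * K₁ * Real.exp (n * (ε / 2)) + n) := by
          rw [show (n : ℝ) * (lrate k p β + ε / 2) = n * lrate k p β + n * (ε / 2) by ring,
            Real.exp_add]
          ring
      _ ≤ Real.exp (n * lrate k p β) * Real.exp (n * ε) :=
          mul_le_mul_of_nonneg_left h6 (Real.exp_pos _).le
      _ = _ := by rw [← Real.exp_add]; ring_nf
  · push Not at hβ
    refine le_trans (rp_mono hq0.le hq1 ?_) (card_event (k := k) hq0 hq1)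
    rintro S ⟨A, hAS, hA, hAc⟩
    refine ⟨A, hAS, hA, le_trans ?_ hAc⟩
    have hlr : lrate k p β = (1 - β) * L := by
      unfold lrate
      rw [min_eq_left hβ.le]
      ring
    have hlr0 : 0 ≤ lrate k p β := by
      rw [hlr]
      exact mul_nonneg (by linarith) hL.le
    have h5 : q * (p : ℝ) ^ n = Real.exp (n * lrate k p β) := by
      rw [hlr, ← Real.exp_log (by positivity : (0 : ℝ) < (p : ℝ) ^ n), Real.log_pow, hq,
        ← Real.exp_add]
      congr 1
      ring
    have h6 := hn₂ n ((le_max_right _ _).trans hn)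
    have h7 : 1 ≤ Real.exp (n * lrate k p β) := Real.one_le_exp (by positivity)
    have h8 : 1 ≤ Real.exp (n * (ε / 2)) := Real.one_le_exp (by positivity)
    rw [h5]
    calc 2 * Real.exp (n * lrate k p β) + n ≤
          2 * (Real.exp (n * lrate k p β) * Real.exp (n * (ε / 2))) +
            Real.exp (n * lrate k p β) * n := by
          have e1 : Real.exp (n * lrate k p β) ≤
              Real.exp (n * lrate k p β) * Real.exp (n * (ε / 2)) :=
            le_mul_of_one_le_right (Real.exp_pos _).le h8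
          have e2 : (n : ℝ) ≤ Real.exp (n * lrate k p β) * n := le_mul_of_one_le_left hn0 h7
          linarith
      _ = Real.exp (n * lrate k p β) * (2 * Real.exp (n * (ε / 2)) + n) := by ring
      _ ≤ Real.exp (n * lrate k p β) * Real.exp (n * ε) :=
          mul_le_mul_of_nonneg_left h6 (Real.exp_pos _).le
      _ = _ := by rw [← Real.exp_add]; ring_nf

end Pool.Agent.L5helper45.CT
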