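import Pool.Agent.H523R2.AP.Norm

set_option autoImplicit false

/-! # Supersaturation for arithmetic progressions in `F_p^n` (helper45) -/

namespace Pool.Agent.L5helper45.CT

open Finset

/-- `A ⊆ F_p^n` contains no nontrivial `k`-term progression `x, x+y, …, x+(k-1)y` with `y ≠ 0`. -/
def APFree (k p n : ℕ) (A : Finset (Fin n → ZMod p)) : Prop :=
  ∀ x y : Fin n → ZMod p, (∀ i : ℕ, i < k → x + i • y ∈ A) → y = 0

/-- `r_k(F_p^n)`: the largest size of a subset of `F_p^n` without nontrivial `k`-term
progressions. -/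
noncomputable def r (k p n : ℕ) : ℕ :=
  sSup {m : ℕ | ∃ A : Finset (Fin n → ZMod p), APFree k p n A ∧ A.card = m}

/-- `λ_{k,p} = sup_{n ≥ 1} r_k(F_p^n)^{1/n}`. -/
noncomputable def lam (k p : ℕ) : ℝ :=
  ⨆ n : ℕ, (r k p (n + 1) : ℝ) ^ (1 / ((n : ℝ) + 1))

variable {p : ℕ} [hpf : Fact p.Prime]

theorem bdd (k n : ℕ) :
    BddAbove {m : ℕ | ∃ A : Finset (Fin n → ZMod p), APFree k p n A ∧ A.card = m} := by
  refine ⟨Fintype.card (Fin n → ZMod p), ?_⟩
  rintro m ⟨B, _, rfl⟩
  exact Finset.card_le_univ B

theorem card_le_r {k n : ℕ} {A : Finset (Fin n → ZMod p)} (hA : APFree k p n A) :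
    A.card ≤ r k p n := le_csSup (bdd k n) ⟨A, hA, rfl⟩

theorem empty_free {k n : ℕ} (hk : 1 ≤ k) : APFree k p n ∅ := by
  intro x y h
  simpa using h 0 (by omega)

theorem exists_r {k : ℕ} (hk : 1 ≤ k) (n : ℕ) :
    ∃ A : Finset (Fin n → ZMod p), APFree k p n A ∧ A.card = r k p n :=
  Nat.sSup_mem (s := {m : ℕ | ∃ A : Finset (Fin n → ZMod p), APFree k p n A ∧ A.card = m})
    ⟨0, ∅, empty_free hk, rfl⟩ (bdd k n)

theorem one_le_r {k : ℕ} (hk : 2 ≤ k) (n : ℕ) : 1 ≤ r k p n := by
  have h : APFree k p n ({0} : Finset (Fin n → ZMod p)) := by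
    intro x y h
    have h0 := h 0 (by omega)
    have h1 := h 1 (by omega)
    rw [mem_singleton] at h0 h1
    rw [zero_smul, add_zero] at h0
    rw [h0, one_smul, zero_add] at h1
    exact h1
  have := card_le_r h
  rwa [card_singleton] at this

theorem card_V (n : ℕ) : Fintype.card (Fin n → ZMod p) = p ^ n := by
  rw [Fintype.card_fun, Fintype.card_fin, ZMod.card]

theorem r_le_pow (k n : ℕ) : r k p n ≤ p ^ n := by
  unfold r
  apply csSup_le'
  rintro m ⟨B, _, rfl⟩
  exact (Finset.card_le_univ B).trans (card_V n).le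

theorem r_mul_le {k : ℕ} (hk : 1 ≤ k) (m n : ℕ) : r k p m * r k p n ≤ r k p (m + n) := by
  classical
  obtain ⟨A, hA, hA'⟩ := exists_r (p := p) hk m
  obtain ⟨B, hB, hB'⟩ := exists_r (p := p) hk n
  rw [← hA', ← hB', ← card_product, ← card_map (Fin.appendEquiv m n).toEmbedding]
  apply card_le_r
  intro x y h
  obtain ⟨⟨x1, x2⟩, rfl⟩ := (Fin.appendEquiv m n).surjective x
  obtain ⟨⟨y1, y2⟩, rfl⟩ := (Fin.appendEquiv m n).surjective y
  have hadd : ∀ i : ℕ, Fin.appendEquiv m n (x1, x2) + i • Fin.appendEquiv m n (y1, y2) =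
      Fin.appendEquiv m n (x1 + i • y1, x2 + i • y2) := by
    intro i
    funext j
    refine Fin.addCases (fun j => ?_) (fun j => ?_) j <;> simp [Fin.appendEquiv]
  have h' : ∀ i < k, x1 + i • y1 ∈ A ∧ x2 + i • y2 ∈ B := by
    intro i hi
    have := h i hi
    rw [hadd, mem_map_equiv, Equiv.symm_apply_apply, mem_product] at this
    exact this
  have e1 := hA x1 y1 fun i hi => (h' i hi).1
  have e2 := hB x2 y2 fun i hi => (h' i hi).2
  rw [e1, e2]
  funext j
  refine Fin.addCases (fun j => ?_) (fun j => ?_) j <;> simp [Fin.appendEquiv]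

theorem r_add_le {k : ℕ} (hk : 1 ≤ k) (n s : ℕ) : r k p (n + s) ≤ p ^ s * r k p n := by
  classical
  obtain ⟨A, hA, hA'⟩ := exists_r (p := p) hk (n + s)
  rw [← hA', ← card_V (p := p) s, ← card_univ, ← smul_eq_mul, ← sum_const]
  have h1 : A.card = ∑ u : Fin s → ZMod p,
      (univ.filter fun x : Fin n → ZMod p => Fin.appendEquiv n s (x, u) ∈ A).card := by
    have e1 : A.card = (univ.filter fun z : (Fin n → ZMod p) × (Fin s → ZMod p) =>
        Fin.appendEquiv n s z ∈ A).card := by
      rw [← card_map (Fin.appendEquiv n s).toEmbedding]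
      congr 1
      ext a
      rw [mem_map_equiv, mem_filter, Equiv.apply_symm_apply]
      exact ⟨fun h => ⟨mem_univ _, h⟩, fun h => h.2⟩
    rw [e1, card_eq_sum_card_fiberwise (f := fun z => z.2) (t := univ)
      (fun _ _ => mem_coe.2 (mem_univ _))]
    refine sum_congr rfl fun u _ => ?_
    refine card_bij' (fun z _ => z.1) (fun x _ => (x, u)) ?_ ?_ ?_ ?_
    · rintro ⟨a, b⟩ h
      simp only [mem_filter, mem_univ, true_and] at h ⊢
      rw [← h.2]
      exact h.1
    · intro a h
      simp only [mem_filter, mem_univ, true_and] at h ⊢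
      exact ⟨h, trivial⟩
    · rintro ⟨a, b⟩ h
      simp only [mem_filter, mem_univ, true_and] at h
      exact Prod.ext rfl h.2.symm
    · intro a _
      rfl
  rw [h1]
  refine sum_le_sum fun u _ => card_le_r ?_
  intro x y h
  have h2 := hA (Fin.appendEquiv n s (x, u)) (Fin.appendEquiv n s (y, 0)) fun i hi => by
    have h3 := (mem_filter.1 (h i hi)).2
    have h4 : Fin.appendEquiv n s (x, u) + i • Fin.appendEquiv n s (y, 0) =
        Fin.appendEquiv n s (x + i • y, u) := by
      funext j
      refine Fin.addCases (fun j => ?_) (fun j => ?_) j <;> simp [Fin.appendEquiv]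
    rw [h4]
    exact h3
  funext j
  have := congrFun h2 (Fin.castAdd s j)
  simpa [Fin.appendEquiv] using this

/-- the pairs `(x, y)` with all `x + i y`, `i < k`, in `A` -/
noncomputable def pairs (k : ℕ) {n : ℕ} (A : Finset (Fin n → ZMod p)) :
    Finset ((Fin n → ZMod p) × (Fin n → ZMod p)) := by
  classical
  exact univ.filter fun z => ∀ i < k, z.1 + i • z.2 ∈ A

/-- the pairs `(x, y)`, `y ≠ 0`, with all `x + i y`, `i < k`, in `A` -/
noncomputable def aps (k : ℕ) {n : ℕ} (A : Finset (Fin n → ZMod p)) :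
    Finset ((Fin n → ZMod p) × (Fin n → ZMod p)) := by
  classical
  exact univ.filter fun z => z.2 ≠ 0 ∧ ∀ i < k, z.1 + i • z.2 ∈ A

theorem mem_pairs {k n : ℕ} {A : Finset (Fin n → ZMod p)} {z : (Fin n → ZMod p) × (Fin n → ZMod p)} :
    z ∈ pairs k A ↔ ∀ i < k, z.1 + i • z.2 ∈ A := by
  unfold pairs
  rw [mem_filter]
  simp

theorem mem_aps {k n : ℕ} {A : Finset (Fin n → ZMod p)} {z : (Fin n → ZMod p) × (Fin n → ZMod p)} :
    z ∈ aps k A ↔ z.2 ≠ 0 ∧ ∀ i < k, z.1 + i • z.2 ∈ A := by
  unfold aps
  rw [mem_filter]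
  simp

theorem pairs_card {k n : ℕ} (hk : 1 ≤ k) (A : Finset (Fin n → ZMod p)) :
    (pairs k A).card = (aps k A).card + A.card := by
  classical
  have h1 : pairs k A = aps k A ∪ A.image (fun x => (x, (0 : Fin n → ZMod p))) := by
    ext ⟨x, y⟩
    rw [mem_union, mem_pairs, mem_aps, mem_image]
    constructor
    · intro h
      by_cases hy : y = 0
      · right
        refine ⟨x, ?_, by rw [hy]⟩
        have := h 0 (by omega)
        simpa using this
      · exact Or.inl ⟨hy, h⟩
    · rintro (h | ⟨a, ha, h⟩)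
      · exact h.2
      · intro i _
        rw [Prod.mk.injEq] at h
        rw [← h.1, ← h.2]
        simpa using ha
  rw [h1, card_union_of_disjoint, card_image_of_injective]
  · intro a b h
    exact (Prod.mk.inj h).1
  · rw [disjoint_left]
    rintro ⟨x, y⟩ h2 h3
    obtain ⟨a, _, h4⟩ := mem_image.1 h3
    exact (mem_aps.1 h2).1 (Prod.mk.inj h4).2.symm

/-- deleting a point from each progression -/
theorem card_le_aps {k n : ℕ} (hk : 1 ≤ k) (A : Finset (Fin n → ZMod p)) :
    A.card ≤ (aps k A).card + r k p n := by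
  classical
  have h1 : APFree k p n (A \ (aps k A).image Prod.fst) := by
    intro x y h
    by_contra hy
    have h2 : (x, y) ∈ aps k A := mem_aps.2 ⟨hy, fun i hi => (mem_sdiff.1 (h i hi)).1⟩
    have h3 := (mem_sdiff.1 (h 0 (by omega))).2
    apply h3
    rw [mem_image]
    exact ⟨(x, y), h2, by simp⟩
  have h2 := card_le_r h1
  have h3 : A.card ≤ (A \ (aps k A).image Prod.fst).card + ((aps k A).image Prod.fst).card :=
    card_le_card_sdiff_add_card
  have h4 : ((aps k A).image Prod.fst).card ≤ (aps k A).card := card_image_le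
  omega

/-- fibres of a surjective homomorphism -/
theorem card_fiber {G H : Type} [AddCommGroup G] [AddCommGroup H] [Fintype G] [Fintype H]
    [DecidableEq H] (f : G →+ H) (hf : Function.Surjective f) (S : Finset H) :
    (univ.filter fun g => f g ∈ S).card * Fintype.card H = S.card * Fintype.card G := by
  classical
  have hc : ∀ h : H, (univ.filter fun g => f g = h).card = (univ.filter fun g => f g = 0).card := by
    intro h
    exact AddMonoidHom.card_fiber_eq_of_mem_range f (hf h) (hf 0)
  have h1 : (univ.filter fun g => f g ∈ S).card = S.card * (univ.filter fun g => f g = 0).card := by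
    rw [card_eq_sum_card_fiberwise (s := univ.filter fun g => f g ∈ S) (f := f) (t := S)
      (fun g hg => (mem_filter.1 (mem_coe.1 hg)).2), ← smul_eq_mul, ← sum_const]
    refine sum_congr rfl fun h hh => ?_
    rw [← hc h]
    congr 1
    ext g
    simp only [mem_filter, mem_univ, true_and]
    constructor
    · exact fun h2 => h2.2
    · intro h2
      exact ⟨by rw [h2]; exact hh, h2⟩
  have h2 : Fintype.card G = Fintype.card H * (univ.filter fun g => f g = 0).card := by
    rw [← card_univ (α := G), card_eq_sum_card_fiberwise (f := f) (t := univ)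
      (fun _ _ => mem_coe.2 (mem_univ _)), ← card_univ (α := H), ← smul_eq_mul, ← sum_const]
    exact sum_congr rfl fun h _ => hc h
  rw [h1, h2]
  ring

/-- parametrised subspaces -/
abbrev Phi (p m n : ℕ) : Type := (Fin n → ZMod p) × (Fin m → Fin n → ZMod p)

/-- the linear part -/
def lin {m n : ℕ} (φ : Phi p m n) (w : Fin m → ZMod p) :
    Fin n → ZMod p := ∑ j, w j • φ.2 j

theorem lin_phi_add {m n : ℕ} (φ ψ : Phi p m n) (w : Fin m → ZMod p) :
    lin (φ + ψ) w = lin φ w + lin ψ w := by
  unfold lin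
  rw [← sum_add_distrib]
  refine sum_congr rfl fun j _ => ?_
  rw [Prod.snd_add, Pi.add_apply, smul_add]

theorem lin_phi_zero {m n : ℕ} (w : Fin m → ZMod p) : lin (0 : Phi p m n) w = 0 := by
  unfold lin
  refine sum_eq_zero fun j _ => ?_
  rw [Prod.snd_zero, Pi.zero_apply, smul_zero]

theorem lin_add {m n : ℕ} (φ : Phi p m n)
    (z w : Fin m → ZMod p) (i : ℕ) : lin φ (z + i • w) = lin φ z + i • lin φ w := by
  unfold lin
  rw [smul_sum, ← sum_add_distrib]
  refine sum_congr rfl fun j _ => ?_
  rw [Pi.add_apply, Pi.smul_apply, add_smul, smul_assoc]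

theorem sup_aux {k : ℕ} (hk : 1 ≤ k) (m n : ℕ) (A : Finset (Fin n → ZMod p)) :
    p ^ m * A.card * p ^ n ≤
      p ^ m * p ^ m * ((aps k A).card + A.card) + r k p m * (p ^ n * p ^ n) := by
  classical
  set pull : Phi p m n → Finset (Fin m → ZMod p) :=
    fun φ => univ.filter fun z => φ.1 + lin φ z ∈ A with hpull
  -- first moment
  have h1 : (∑ φ : Phi p m n, (pull φ).card) * p ^ n = p ^ m * A.card * Fintype.card (Phi p m n) := by
    have e1 : ∑ φ : Phi p m n, (pull φ).card =
        ∑ z : Fin m → ZMod p, (univ.filter fun φ : Phi p m n => φ.1 + lin φ z ∈ A).card := by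
      simp only [hpull, card_filter]
      exact sum_comm
    rw [e1, sum_mul]
    have e2 : ∀ z ∈ (univ : Finset (Fin m → ZMod p)),
        (univ.filter fun φ : Phi p m n => φ.1 + lin φ z ∈ A).card * p ^ n = A.card * Fintype.card (Phi p m n) := by
      intro z _
      let f : Phi p m n →+ (Fin n → ZMod p) :=
        { toFun := fun φ => φ.1 + lin φ z
          map_zero' := by rw [lin_phi_zero, Prod.fst_zero, add_zero]
          map_add' := fun a b => by
            rw [lin_phi_add, Prod.fst_add]
            abel }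
      have := card_fiber f (fun v => ⟨(v, 0), by simp [f, lin]⟩) A
      rw [card_V] at this
      exact this
    rw [sum_congr rfl e2, sum_const, card_univ, card_V, smul_eq_mul]
    ring
  -- progressions
  have h2 : (∑ φ : Phi p m n, (aps k (pull φ)).card) * (p ^ n * p ^ n) ≤
      p ^ m * p ^ m * ((aps k A).card + A.card) * Fintype.card (Phi p m n) := by
    have e1 : ∑ φ : Phi p m n, (aps k (pull φ)).card =
        ∑ z : (Fin m → ZMod p) × (Fin m → ZMod p), (univ.filter fun φ : Phi p m n => z ∈ aps k (pull φ)).card := by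
      have : ∀ φ : Phi p m n, (aps k (pull φ)).card =
          ∑ z : (Fin m → ZMod p) × (Fin m → ZMod p), if z ∈ aps k (pull φ) then 1 else 0 := by
        intro φ
        rw [← card_filter, filter_mem_eq_inter, univ_inter]
      rw [sum_congr rfl fun φ _ => this φ, sum_comm]
      refine sum_congr rfl fun z _ => ?_
      rw [card_filter]
    rw [e1, sum_mul]
    have e2 : ∀ z ∈ (univ : Finset ((Fin m → ZMod p) × (Fin m → ZMod p))),
        (univ.filter fun φ : Phi p m n => z ∈ aps k (pull φ)).card * (p ^ n * p ^ n) ≤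
          ((aps k A).card + A.card) * Fintype.card (Phi p m n) := by
      rintro ⟨z, w⟩ _
      by_cases hw : w = 0
      · have : (univ.filter fun φ : Phi p m n => (z, w) ∈ aps k (pull φ)) = ∅ := by
          rw [filter_eq_empty_iff]
          intro φ _ h
          exact (mem_aps.1 h).1 hw
        rw [this]
        simp
      obtain ⟨j, hj⟩ : ∃ j, w j ≠ 0 := by
        by_contra hcon
        push Not at hcon
        exact hw (funext hcon)
      let f : Phi p m n →+ (Fin n → ZMod p) × (Fin n → ZMod p) :=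
        { toFun := fun φ => (φ.1 + lin φ z, lin φ w)
          map_zero' := by rw [lin_phi_zero, lin_phi_zero, Prod.fst_zero, add_zero]; rfl
          map_add' := fun a b => by
            rw [lin_phi_add, lin_phi_add, Prod.fst_add]
            refine Prod.ext ?_ rfl
            change a.1 + b.1 + (lin a z + lin b z) = a.1 + lin a z + (b.1 + lin b z)
            abel }
      have hsurj : Function.Surjective f := by
        rintro ⟨x, y⟩
        have hy : ∀ v : Fin n → ZMod p, lin ((v, fun i => if i = j then (w j)⁻¹ • y else 0) : Phi p m n) w = y := by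
          intro v
          unfold lin
          rw [sum_eq_single j]
          · simp [smul_smul, mul_inv_cancel₀ hj]
          · intro i _ hi
            simp [hi]
          · intro h
            exact absurd (mem_univ j) h
        refine ⟨(x - lin ((0, fun i => if i = j then (w j)⁻¹ • y else 0) : Phi p m n) z,
          fun i => if i = j then (w j)⁻¹ • y else 0), Prod.ext ?_ (hy _)⟩
        change x - lin ((0, fun i => if i = j then (w j)⁻¹ • y else 0) : Phi p m n) z +
          lin ((_, fun i => if i = j then (w j)⁻¹ • y else 0) : Phi p m n) z = x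
        unfold lin
        simp
      have h3 := card_fiber f hsurj (pairs k A)
      rw [Fintype.card_prod, card_V, pairs_card hk] at h3
      rw [← h3]
      apply Nat.mul_le_mul_right
      apply card_le_card
      intro φ hφ
      rw [mem_filter] at hφ ⊢
      refine ⟨mem_univ _, mem_pairs.2 fun i hi => ?_⟩
      have h4 := (mem_aps.1 hφ.2).2 i hi
      rw [hpull, mem_filter, lin_add, ← add_assoc] at h4
      exact h4.2
    refine (sum_le_sum e2).trans ?_
    rw [sum_const, card_univ, Fintype.card_prod, card_V, smul_eq_mul]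
    exact le_of_eq (by ring)
  -- deletion
  have h3 : ∑ φ : Phi p m n, (pull φ).card ≤ ∑ φ : Phi p m n, (aps k (pull φ)).card + Fintype.card (Phi p m n) * r k p m := by
    rw [← card_univ, ← smul_eq_mul, ← sum_const, ← sum_add_distrib]
    exact sum_le_sum fun φ _ => card_le_aps hk _
  have hpos : 0 < Fintype.card (Phi p m n) := Fintype.card_pos
  apply Nat.le_of_mul_le_mul_right _ hpos
  calc p ^ m * A.card * p ^ n * Fintype.card (Phi p m n) = (p ^ m * A.card * Fintype.card (Phi p m n)) * p ^ n := by ring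
    _ = (∑ φ : Phi p m n, (pull φ).card) * p ^ n * p ^ n := by rw [h1]
    _ ≤ (∑ φ : Phi p m n, (aps k (pull φ)).card + Fintype.card (Phi p m n) * r k p m) * p ^ n * p ^ n := by gcongr
    _ = (∑ φ : Phi p m n, (aps k (pull φ)).card) * (p ^ n * p ^ n) +
        Fintype.card (Phi p m n) * r k p m * (p ^ n * p ^ n) := by ring
    _ ≤ p ^ m * p ^ m * ((aps k A).card + A.card) * Fintype.card (Phi p m n) +
        Fintype.card (Phi p m n) * r k p m * (p ^ n * p ^ n) := by gcongr
    _ = _ := by ring

/-- **Supersaturation**, in the form used. -/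
theorem sup {k : ℕ} (hk : 2 ≤ k) (n t : ℕ) (A : Finset (Fin n → ZMod p))
    (h : 2 * p ^ t * r k p n ≤ A.card * r k p t) :
    p ^ t * A.card ≤ 2 * ((aps k A).card + A.card) := by
  have hp : 0 < p := hpf.out.pos
  have hrt : 0 < r k p t := one_le_r hk t
  have hrn : 0 < r k p n := one_le_r hk n
  rcases le_or_gt t n with htn | htn
  · obtain ⟨m, rfl⟩ : ∃ m, n = m + t := ⟨n - t, by omega⟩
    have h1 := sup_aux (by omega : 1 ≤ k) m (m + t) A
    have h2 := r_mul_le (p := p) (by omega : 1 ≤ k) m t
    have h3 : 2 * p ^ t * r k p m ≤ A.card := by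
      apply Nat.le_of_mul_le_mul_right _ hrt
      calc 2 * p ^ t * r k p m * r k p t = 2 * p ^ t * (r k p m * r k p t) := by ring
        _ ≤ 2 * p ^ t * r k p (m + t) := by gcongr
        _ ≤ _ := h
    have hM : 0 < p ^ m * p ^ m := by positivity
    have h4 : p ^ t * A.card ≤ (aps k A).card + A.card + r k p m * (p ^ t * p ^ t) := by
      apply Nat.le_of_mul_le_mul_left _ hM
      calc p ^ m * p ^ m * (p ^ t * A.card) = p ^ m * A.card * p ^ (m + t) := by ring
        _ ≤ _ := h1
        _ = _ := by ring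
    have h5 : 2 * (r k p m * (p ^ t * p ^ t)) ≤ p ^ t * A.card := by
      calc 2 * (r k p m * (p ^ t * p ^ t)) = p ^ t * (2 * p ^ t * r k p m) := by ring
        _ ≤ p ^ t * A.card := by gcongr
    omega
  · exfalso
    obtain ⟨s, rfl⟩ : ∃ s, t = n + s := ⟨t - n, by omega⟩
    have h1 := r_add_le (p := p) (by omega : 1 ≤ k) n s
    have h2 : A.card ≤ p ^ n := (card_le_univ A).trans (card_V n).le
    have h3 : 2 * p ^ (n + s) * r k p n ≤ p ^ n * (p ^ s * r k p n) :=
      h.trans (Nat.mul_le_mul h2 h1)
    have h4 : p ^ n * (p ^ s * r k p n) = p ^ (n + s) * r k p n := by ring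
    have h5 : 0 < p ^ (n + s) * r k p n := by positivity
    rw [h4, mul_assoc] at h3
    omega

end Pool.Agent.L5helper45.CT
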