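import Pool.Agent.L5helper45.CT.RandUp

set_option autoImplicit false

/-! # The supersaturation exponent (helper45) -/

namespace Pool.Agent.L5helper45.CT

open Finset

variable {p : ℕ} [hpf : Fact p.Prime]

theorem half_lt_lam {k : ℕ} (hk : 3 ≤ k) (hkp : k ≤ p) :
    Real.log p / 2 < Real.log (lam k p) := by
  have hp1 : (1 : ℝ) < p := by exact_mod_cast hpf.out.one_lt
  have hL : 0 < Real.log p := Real.log_pos hp1
  have hk3 : (3 : ℝ) ≤ k := by exact_mod_cast hk
  refine lt_of_lt_of_le ?_ (norm_le_lam (p := p) hk hkp)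
  have : 1 / (k : ℝ) ≤ 1 / 3 := by
    apply one_div_le_one_div_of_le (by norm_num)
    linarith
  nlinarith

/-- exponents below the critical one -/
theorem ss_below {k : ℕ} (hk : 3 ≤ k) (hkp : k ≤ p) {g : ℝ}
    (hg : g * (Real.log p - Real.log (lam k p)) < Real.log p) :
    ∃ a K₀ : ℝ, 0 < a ∧ 0 < K₀ ∧ ∀ (n : ℕ) (A : Finset (Fin n → ZMod p)),
      K₀ * r k p n ≤ A.card → a * A.card * ((A.card : ℝ) / r k p n) ^ g ≤ ((aps k A).card : ℝ) := by
  have hp0 : (0 : ℝ) < p := by exact_mod_cast hpf.out.pos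
  have hp1 : (1 : ℝ) < p := by exact_mod_cast hpf.out.one_lt
  have hL : 0 < Real.log p := Real.log_pos hp1
  have hhalf := half_lt_lam (p := p) hk hkp
  have hl : 0 < lam k p := lt_of_lt_of_le one_pos (one_le_lam (by omega))
  have hℓL : Real.log (lam k p) ≤ Real.log p := Real.log_le_log hl (lam_le k)
  set L : ℝ := Real.log p with hLdef
  set ℓ : ℝ := Real.log (lam k p) with hℓ
  set G : ℝ := max g 2 with hG
  have hG2 : 2 ≤ G := le_max_right _ _
  have hGg : G * (L - ℓ) < L := by
    rcases le_total g 2 with h | h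
    · rw [hG, max_eq_right h]
      linarith
    · rw [hG, max_eq_left h]
      exact hg
  set x : ℝ := L * (1 - 1 / G) with hx
  have hG0 : 0 < G := by linarith
  have hG1 : 1 / G ≤ 1 / 2 := one_div_le_one_div_of_le (by norm_num) hG2
  have hx0 : 0 < x := mul_pos hL (by linarith)
  have hxL : x < L := by
    have : 0 < 1 / G := by positivity
    nlinarith
  have hxℓ : x < ℓ := by
    have h1 : L - ℓ < L / G := by
      rw [lt_div_iff₀ hG0]
      linarith
    have h2 : x = L - L / G := by rw [hx]; ring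
    linarith
  obtain ⟨c, hc, hgr⟩ := growth_x (p := p) hk hkp hx0.le (Or.inr hxℓ)
  have hμ1 : 1 < Real.exp x := Real.one_lt_exp_iff.2 hx0
  have hμp : Real.exp x < p := by
    rw [← Real.exp_log hp0]
    exact Real.exp_lt_exp.2 hxL
  obtain ⟨a, K₀, ha, hK₀, hss⟩ := ss_real (p := p) (by omega : 2 ≤ k) hμ1 hμp hc hgr
  have hexp : Real.log p / Real.log (p / Real.exp x) = G := by
    rw [Real.log_div hp0.ne' (Real.exp_pos x).ne', Real.log_exp, ← hLdef]
    have : L - x = L / G := by rw [hx]; ring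
    rw [this, div_div_eq_mul_div, mul_div_assoc, mul_comm, div_mul_cancel₀ _ hL.ne']
  rw [hexp] at hss
  refine ⟨a, max K₀ 1, ha, by positivity, fun n A hA => ?_⟩
  have hr : (1 : ℝ) ≤ r k p n := by exact_mod_cast one_le_r (by omega : 2 ≤ k) n
  have hr0 : (0 : ℝ) < r k p n := by linarith
  have h1 := hss n A ((mul_le_mul_of_nonneg_right (le_max_left _ _) hr0.le).trans hA)
  refine le_trans ?_ h1
  apply mul_le_mul_of_nonneg_left _ (by positivity)
  apply Real.rpow_le_rpow_of_exponent_le _ (le_max_left _ _)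
  rw [one_le_div hr0]
  have h2 : 1 * (r k p n : ℝ) ≤ max K₀ 1 * r k p n :=
    mul_le_mul_of_nonneg_right (le_max_right _ _) hr0.le
  linarith

theorem aps_le (k n : ℕ) (hk : 1 ≤ k) (A : Finset (Fin n → ZMod p)) :
    (aps k A).card ≤ A.card * p ^ n := by
  classical
  have h1 : aps k A ⊆ A ×ˢ (univ : Finset (Fin n → ZMod p)) := by
    intro z hz
    rw [mem_product]
    refine ⟨?_, mem_univ _⟩
    have := (mem_aps.1 hz).2 0 (by omega)
    simpa using this
  calc (aps k A).card ≤ _ := card_le_card h1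
    _ = _ := by rw [card_product, card_univ, card_V]

/-- the exponents are not larger than the critical one -/
theorem ss_above {k : ℕ} (hk : 3 ≤ k) {g : ℝ} {a K₀ : ℝ} (ha : 0 < a)
    (h : ∃ᶠ n : ℕ in Filter.atTop, K₀ * r k p n ≤ (p : ℝ) ^ n →
      a * (p : ℝ) ^ n * ((p : ℝ) ^ n / r k p n) ^ g ≤
        ((aps k (univ : Finset (Fin n → ZMod p))).card : ℝ)) :
    g * (Real.log p - Real.log (lam k p)) ≤ Real.log p := by
  have hp0 : (0 : ℝ) < p := by exact_mod_cast hpf.out.pos
  have hp1 : (1 : ℝ) < p := by exact_mod_cast hpf.out.one_lt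
  have hL : 0 < Real.log p := Real.log_pos hp1
  have hl : 0 < lam k p := lt_of_lt_of_le one_pos (one_le_lam (by omega))
  have hℓL : Real.log (lam k p) ≤ Real.log p := Real.log_le_log hl (lam_le k)
  set L : ℝ := Real.log p with hLdef
  set ℓ : ℝ := Real.log (lam k p) with hℓ
  by_contra hcon
  push Not at hcon
  have hd : 0 < L - ℓ := by
    rcases hℓL.lt_or_eq with h1 | h1
    · linarith
    · rw [h1, sub_self, mul_zero] at hcon
      linarith
  have hg0 : 0 < g := by
    by_contra hg
    push Not at hg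
    nlinarith
  have hT1 : Filter.Tendsto (fun n : ℕ => (n : ℝ) * (L - ℓ)) Filter.atTop Filter.atTop :=
    tendsto_natCast_atTop_atTop.atTop_mul_const hd
  have hT2 : Filter.Tendsto (fun n : ℕ => (n : ℝ) * (g * (L - ℓ) - L)) Filter.atTop Filter.atTop :=
    tendsto_natCast_atTop_atTop.atTop_mul_const (by linarith)
  obtain ⟨n, hn, hn1, hn2⟩ := (h.and_eventually ((hT1.eventually_ge_atTop (K₀)).and
    (hT2.eventually_gt_atTop (-Real.log a)))).exists
  have hrl : (r k p n : ℝ) ≤ Real.exp (n * ℓ) := by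
    rw [Real.exp_nat_mul, hℓ, Real.exp_log hl]
    exact r_le_lam n
  have hpn : (p : ℝ) ^ n = Real.exp (n * L) := by
    rw [Real.exp_nat_mul, hLdef, Real.exp_log hp0]
  have hr : (1 : ℝ) ≤ r k p n := by exact_mod_cast one_le_r (by omega : 2 ≤ k) n
  have hr0 : (0 : ℝ) < r k p n := by linarith
  have h1 : K₀ * r k p n ≤ (p : ℝ) ^ n := by
    have h2 : K₀ ≤ Real.exp (n * (L - ℓ)) := by
      have := Real.add_one_le_exp ((n : ℝ) * (L - ℓ))
      linarith
    calc K₀ * r k p n ≤ Real.exp (n * (L - ℓ)) * r k p n := mul_le_mul_of_nonneg_right h2 hr0.le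
      _ ≤ Real.exp (n * (L - ℓ)) * Real.exp (n * ℓ) :=
          mul_le_mul_of_nonneg_left hrl (Real.exp_pos _).le
      _ = (p : ℝ) ^ n := by
          rw [hpn, ← Real.exp_add]
          ring_nf
  have h2 := hn h1
  have h3 : ((aps k (univ : Finset (Fin n → ZMod p))).card : ℝ) ≤ (p : ℝ) ^ n * (p : ℝ) ^ n := by
    have := aps_le (p := p) k n (by omega) (univ : Finset (Fin n → ZMod p))
    rw [card_univ, card_V] at this
    exact_mod_cast this
  have h4 : Real.exp (n * (L - ℓ)) ≤ (p : ℝ) ^ n / r k p n := by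
    rw [le_div_iff₀ hr0, hpn]
    calc Real.exp (n * (L - ℓ)) * r k p n ≤ Real.exp (n * (L - ℓ)) * Real.exp (n * ℓ) :=
          mul_le_mul_of_nonneg_left hrl (Real.exp_pos _).le
      _ = _ := by
          rw [← Real.exp_add]
          ring_nf
  have h5 : Real.exp (n * (g * (L - ℓ))) ≤ ((p : ℝ) ^ n / r k p n) ^ g := by
    calc Real.exp (n * (g * (L - ℓ))) = Real.exp (n * (L - ℓ)) ^ g := by
          rw [← Real.exp_mul]
          ring_nf
      _ ≤ _ := Real.rpow_le_rpow (Real.exp_pos _).le h4 hg0.le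
  have h6 : a * Real.exp (n * (g * (L - ℓ))) ≤ Real.exp (n * L) := by
    have hpn0 : 0 < (p : ℝ) ^ n := by positivity
    have h7 : a * (p : ℝ) ^ n * Real.exp (n * (g * (L - ℓ))) ≤ (p : ℝ) ^ n * (p : ℝ) ^ n :=
      (mul_le_mul_of_nonneg_left h5 (by positivity)).trans (h2.trans h3)
    rw [← hpn]
    apply le_of_mul_le_mul_left _ hpn0
    linarith
  have h7 : Real.exp (Real.log a + n * (g * (L - ℓ))) ≤ Real.exp (n * L) := by
    rw [Real.exp_add, Real.exp_log ha]
    exact h6
  have h8 := Real.exp_le_exp.1 h7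
  linarith

/-- many progressions in all sets with `p^(α n)` elements -/
theorem scale_lower {k : ℕ} (hk : 3 ≤ k) (hkp : k ≤ p) (hlp : lam k p < p) {ε : ℝ} (hε : 0 < ε) :
    ∃ n₀ : ℕ, ∀ n : ℕ, n₀ ≤ n → ∀ α : ℝ, Real.logb p (lam k p) + ε ≤ α → α ≤ 1 →
      ∀ A : Finset (Fin n → ZMod p), (p : ℝ) ^ (α * n) ≤ A.card →
        (p : ℝ) ^ ((α + (α - Real.logb p (lam k p)) / (1 - Real.logb p (lam k p)) - ε) * n) ≤
          ((aps k A).card : ℝ) := by
  have hp0 : (0 : ℝ) < p := by exact_mod_cast hpf.out.pos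
  have hp1 : (1 : ℝ) < p := by exact_mod_cast hpf.out.one_lt
  have hL : 0 < Real.log p := Real.log_pos hp1
  have hl : 0 < lam k p := lt_of_lt_of_le one_pos (one_le_lam (by omega))
  set L : ℝ := Real.log p with hLdef
  set b : ℝ := Real.logb p (lam k p) with hb
  have hbL : b * L = Real.log (lam k p) := by
    rw [hb, hLdef, ← Real.log_div_log]
    exact div_mul_cancel₀ _ hL.ne'
  have hb1 : b < 1 := by
    have h1 : b * L < 1 * L := by
      rw [hbL, one_mul]
      exact Real.log_lt_log hl hlp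
    exact lt_of_mul_lt_mul_right h1 hL.le
  have hd : 0 < 1 - b := by linarith
  set g : ℝ := 1 / (1 - b) - ε / 2 with hg
  have hgc : g * (L - Real.log (lam k p)) < L := by
    rw [← hbL, hg]
    have h1 : (1 / (1 - b) - ε / 2) * (L - b * L) = L - ε / 2 * (1 - b) * L := by
      field_simp
    rw [h1]
    have : 0 < ε / 2 * (1 - b) * L := by positivity
    linarith
  obtain ⟨a, K₀, ha, hK₀, hss⟩ := ss_below (p := p) hk hkp hgc
  have hT1 : Filter.Tendsto (fun n : ℕ => (n : ℝ) * (ε * L)) Filter.atTop Filter.atTop :=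
    tendsto_natCast_atTop_atTop.atTop_mul_const (by positivity)
  have hT2 : Filter.Tendsto (fun n : ℕ => (n : ℝ) * (ε / 2 * L)) Filter.atTop Filter.atTop :=
    tendsto_natCast_atTop_atTop.atTop_mul_const (by positivity)
  obtain ⟨n₀, hn₀⟩ := Filter.eventually_atTop.1 ((hT1.eventually_ge_atTop K₀).and
    (hT2.eventually_ge_atTop (-Real.log a)))
  refine ⟨n₀, fun n hn α hα1 hα2 A hA => ?_⟩
  obtain ⟨h1, h2⟩ := hn₀ n hn
  have hn0 : (0 : ℝ) ≤ n := Nat.cast_nonneg _
  have hr : (1 : ℝ) ≤ r k p n := by exact_mod_cast one_le_r (by omega : 2 ≤ k) n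
  have hr0 : (0 : ℝ) < r k p n := by linarith
  have hrl : (r k p n : ℝ) ≤ Real.exp (n * (b * L)) := by
    rw [Real.exp_nat_mul, hbL, Real.exp_log hl]
    exact r_le_lam n
  have hA' : Real.exp (α * n * L) ≤ A.card := by
    rw [Real.rpow_def_of_pos hp0] at hA
    rwa [mul_comm (Real.log (p : ℝ))] at hA
  have hA0 : (0 : ℝ) < A.card := lt_of_lt_of_le (Real.exp_pos _) hA'
  have h3 : Real.exp (n * ((α - b) * L)) ≤ (A.card : ℝ) / r k p n := by
    rw [le_div_iff₀ hr0]
    refine le_trans ?_ hA'
    calc Real.exp (n * ((α - b) * L)) * r k p n ≤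
          Real.exp (n * ((α - b) * L)) * Real.exp (n * (b * L)) :=
          mul_le_mul_of_nonneg_left hrl (Real.exp_pos _).le
      _ = _ := by
          rw [← Real.exp_add]
          ring_nf
  have h4 : K₀ ≤ Real.exp (n * ((α - b) * L)) := by
    have h5 : (n : ℝ) * (ε * L) ≤ n * ((α - b) * L) :=
      mul_le_mul_of_nonneg_left (mul_le_mul_of_nonneg_right (by linarith) hL.le) hn0
    have := Real.add_one_le_exp ((n : ℝ) * ((α - b) * L))
    linarith
  have h5 : K₀ * r k p n ≤ A.card := by
    rw [← le_div_iff₀ hr0]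
    exact h4.trans h3
  refine le_trans ?_ (hss n A h5)
  by_cases hg0 : 0 ≤ g
  · have h6 : Real.exp (n * ((α - b) * L) * g) ≤ ((A.card : ℝ) / r k p n) ^ g := by
      rw [Real.exp_mul]
      exact Real.rpow_le_rpow (Real.exp_pos _).le h3 hg0
    calc (p : ℝ) ^ ((α + (α - b) / (1 - b) - ε) * n) =
          Real.exp ((α + (α - b) / (1 - b) - ε) * n * L) := by
          rw [Real.rpow_def_of_pos hp0, mul_comm]
      _ ≤ Real.exp (Real.log a + α * n * L + n * ((α - b) * L) * g) := by
          apply Real.exp_le_exp.2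
          have e1 : n * ((α - b) * L) * g = ((α - b) / (1 - b)) * n * L -
              (α - b) * (ε / 2) * n * L := by
            rw [hg]
            field_simp
          have hb0 : 0 ≤ b := Real.logb_nonneg hp1 (one_le_lam (by omega))
          have e2 : (α - b) * (ε / 2) * n * L ≤ 1 * (ε / 2) * n * L := by
            have : 0 ≤ (ε / 2) * n * L := by positivity
            nlinarith
          rw [e1]
          linarith
      _ = a * Real.exp (α * n * L) * Real.exp (n * ((α - b) * L) * g) := by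
          rw [Real.exp_add, Real.exp_add, Real.exp_log ha]
      _ ≤ _ := by gcongr
  · -- `g ≥ 0` always if `ε` is small; otherwise the claim is weak
    push Not at hg0
    have h7 : 1 / (1 - b) ≥ 1 := by
      rw [ge_iff_le, le_div_iff₀ hd]
      have hb0 : 0 ≤ b := Real.logb_nonneg hp1 (one_le_lam (by omega))
      linarith
    have hα0 : 0 ≤ α := by
      have hb0 : 0 ≤ b := Real.logb_nonneg hp1 (one_le_lam (by omega))
      linarith
    exfalso
    have hb0 : 0 ≤ b := Real.logb_nonneg hp1 (one_le_lam (by omega))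
    have : ε ≤ 1 := by linarith
    rw [hg] at hg0
    linarith

/-- sets with `p^(α n)` elements and few progressions -/
theorem scale_upper {k : ℕ} (hk : 3 ≤ k) (hkp : k ≤ p) (hlp : lam k p < p) {ε : ℝ} (hε : 0 < ε) :
    ∃ n₀ : ℕ, ∀ n : ℕ, n₀ ≤ n → ∀ α : ℝ, Real.logb p (lam k p) ≤ α → α ≤ 1 →
      ∃ A : Finset (Fin n → ZMod p), (p : ℝ) ^ (α * n) ≤ A.card ∧
        ((aps k A).card : ℝ) ≤
          (p : ℝ) ^ ((α + (α - Real.logb p (lam k p)) / (1 - Real.logb p (lam k p)) + ε) * n) := by
  have hp0 : (0 : ℝ) < p := by exact_mod_cast hpf.out.pos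
  have hp1 : (1 : ℝ) < p := by exact_mod_cast hpf.out.one_lt
  have hL : 0 < Real.log p := Real.log_pos hp1
  have hl : 0 < lam k p := lt_of_lt_of_le one_pos (one_le_lam (by omega))
  set L : ℝ := Real.log p with hLdef
  set b : ℝ := Real.logb p (lam k p) with hb
  have hbL : b * L = Real.log (lam k p) := by
    rw [hb, hLdef, ← Real.log_div_log]
    exact div_mul_cancel₀ _ hL.ne'
  have hb1 : b < 1 := by
    have h1 : b * L < 1 * L := by
      rw [hbL, one_mul]
      exact Real.log_lt_log hl hlp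
    exact lt_of_mul_lt_mul_right h1 hL.le
  have hb0 : 0 ≤ b := Real.logb_nonneg hp1 (one_le_lam (by omega))
  have hd : 0 < 1 - b := by linarith
  set δ : ℝ := ε / 4 with hδ
  have hδ0 : 0 < δ := by positivity
  set ε' : ℝ := δ * ((1 - b) * L) / 2 with hε'
  have hε'0 : 0 < ε' := by positivity
  obtain ⟨x, hx0, hxL, hx1, hx2, hx3, c, hc, hgr⟩ := choose_exp (p := p) hk hkp hε'0
  rw [← hbL] at hx2 hx3
  rw [← hLdef] at hxL
  have hT1 : Filter.Tendsto (fun n : ℕ => (n : ℝ) * ε') Filter.atTop Filter.atTop :=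
    tendsto_natCast_atTop_atTop.atTop_mul_const hε'0
  have hT2 : Filter.Tendsto (fun n : ℕ => (n : ℝ) * δ) Filter.atTop Filter.atTop :=
    tendsto_natCast_atTop_atTop.atTop_mul_const hδ0
  obtain ⟨n₀, hn₀⟩ := Filter.eventually_atTop.1 ((hT1.eventually_ge_atTop (-Real.log c)).and
    (hT2.eventually_ge_atTop 1))
  refine ⟨n₀, fun n hn α hα1 hα2 => ?_⟩
  obtain ⟨h1, h2⟩ := hn₀ n hn
  have hn0 : (0 : ℝ) ≤ n := Nat.cast_nonneg _
  set s : ℝ := (α - b) / (1 - b) with hs
  have hs0 : 0 ≤ s := div_nonneg (by linarith) hd.le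
  have hs1 : s ≤ 1 := by rw [hs, div_le_one hd]; linarith
  have hsb : s * (1 - b) = α - b := div_mul_cancel₀ _ hd.ne'
  obtain ⟨t, ht⟩ : ∃ t : ℕ, t = ⌈(s + δ) * n⌉₊ := ⟨_, rfl⟩
  have ht1 : (s + δ) * n ≤ t := by rw [ht]; exact Nat.le_ceil _
  have ht2 : (t : ℝ) < (s + δ) * n + 1 := by
    rw [ht]
    exact Nat.ceil_lt_add_one (by positivity)
  have hpow : ∀ y : ℝ, (p : ℝ) ^ (y * n) = Real.exp (y * n * L) := by
    intro y
    rw [Real.rpow_def_of_pos hp0, mul_comm]
  rw [hpow, hpow]
  have hpn : ∀ j : ℕ, (p : ℝ) ^ j = Real.exp (j * L) := by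
    intro j
    rw [Real.exp_nat_mul, hLdef, Real.exp_log hp0]
  rcases le_total n t with hnt | htn
  · -- the whole space
    refine ⟨univ, ?_, ?_⟩
    · rw [card_univ, card_V, Nat.cast_pow, hpn]
      apply Real.exp_le_exp.2
      have : α * n * L ≤ 1 * n * L := by gcongr
      linarith
    · have h3 := aps_le (p := p) k n (by omega) (univ : Finset (Fin n → ZMod p))
      rw [card_univ, card_V] at h3
      have h4 : ((aps k (univ : Finset (Fin n → ZMod p))).card : ℝ) ≤ (p : ℝ) ^ n * (p : ℝ) ^ n := by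
        exact_mod_cast h3
      refine h4.trans ?_
      rw [hpn, ← Real.exp_add]
      apply Real.exp_le_exp.2
      have e1 : (n : ℝ) ≤ t := by exact_mod_cast hnt
      have e2 : (n : ℝ) ≤ s * n + 2 * (n * δ) := by nlinarith
      have e3 : s ≤ α := by
        have : α = 1 - (1 - s) * (1 - b) := by linarith
        nlinarith
      have e4 : s * n ≤ α * n := mul_le_mul_of_nonneg_right e3 hn0
      have e5 : (n : ℝ) + n ≤ (α + s + ε) * n := by
        rw [hδ] at e2
        nlinarith
      have e6 := mul_le_mul_of_nonneg_right e5 hL.le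
      linarith
  · obtain ⟨m, hm⟩ : ∃ m : ℕ, n = m + t := ⟨n - t, by omega⟩
    clear ht
    have hmn : (m : ℝ) = n - t := by
      rw [hm]; push_cast; ring
    obtain ⟨D, hD, hD'⟩ := block (p := p) (by omega : 1 ≤ k) m t
    have hDr : (D.card : ℝ) = r k p m * (p : ℝ) ^ t := by
      rw [hD]; push_cast; ring
    have hrl : (r k p m : ℝ) ≤ Real.exp (m * (b * L)) := by
      rw [Real.exp_nat_mul, hbL, Real.exp_log hl]
      exact r_le_lam m
    have hrg : c * Real.exp (m * x) ≤ r k p m := by
      rw [Real.exp_nat_mul]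
      exact hgr m
    have hcard : Real.exp (α * n * L) ≤ D.card := by
      rw [hDr]
      calc Real.exp (α * n * L) ≤ Real.exp (Real.log c + m * x + t * L) := by
            apply Real.exp_le_exp.2
            have e1 : α = b + s * (1 - b) := by linarith
            rw [hmn]
            have e2 : (s + δ) * n * (L - x) ≤ t * (L - x) :=
              mul_le_mul_of_nonneg_right ht1 (by linarith)
            have e3 : δ * ((1 - b) * L) ≤ δ * (L - x) + δ * ε' - δ * ε' := by
              have : (1 - b) * L ≤ L - x := by linarith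
              nlinarith
            have e4 : n * (δ * ((1 - b) * L)) ≤ n * (δ * (L - x)) :=
              mul_le_mul_of_nonneg_left (by linarith) hn0
            have e5 : δ * ((1 - b) * L) = 2 * ε' := by rw [hε']; ring
            rw [e5] at e4
            have e6 : (1 - s) * (b * L) ≤ (1 - s) * x + ε' := by
              have h9 : (1 - s) * (b * L) ≤ (1 - s) * (x + ε') :=
                mul_le_mul_of_nonneg_left (by linarith) (by linarith)
              have h10 : (1 - s) * ε' ≤ ε' := mul_le_of_le_one_left hε'0.le (by linarith)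
              linarith
            have e7 := mul_le_mul_of_nonneg_left e6 hn0
            rw [e1]
            nlinarith
        _ = c * Real.exp (m * x) * Real.exp (t * L) := by
            rw [Real.exp_add, Real.exp_add, Real.exp_log hc]
        _ ≤ r k p m * (p : ℝ) ^ t := by
            rw [hpn]
            exact mul_le_mul_of_nonneg_right hrg (Real.exp_pos _).le
    have haps : ((aps k D).card : ℝ) ≤ Real.exp ((α + s + ε) * n * L) := by
      have e0 : ((aps k D).card : ℝ) ≤ D.card * (p : ℝ) ^ t := by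
        have : (aps k D).card ≤ D.card * p ^ t :=
          hD'.trans (Nat.mul_le_mul_left _ (Nat.sub_le _ _))
        exact_mod_cast this
      refine e0.trans ?_
      rw [hDr, hpn]
      calc r k p m * Real.exp (t * L) * Real.exp (t * L) ≤
            Real.exp (m * (b * L)) * Real.exp (t * L) * Real.exp (t * L) := by gcongr
        _ = Real.exp (m * (b * L) + t * L + t * L) := by rw [Real.exp_add, Real.exp_add]
        _ ≤ _ := by
            apply Real.exp_le_exp.2
            have e1 : α = b + s * (1 - b) := by linarith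
            rw [hmn]
            have e2 : (t : ℝ) * ((2 - b) * L) ≤ ((s + δ) * n + 1) * ((2 - b) * L) :=
              mul_le_mul_of_nonneg_right ht2.le (mul_nonneg (by linarith) hL.le)
            have e3 : (δ * n + 1) * ((2 - b) * L) ≤ (δ * n + 1) * (2 * L) := by
              apply mul_le_mul_of_nonneg_left _ (by positivity)
              nlinarith
            have e4 : (δ * n + 1) * (2 * L) ≤ (2 * (δ * n)) * (2 * L) := by
              apply mul_le_mul_of_nonneg_right _ (by positivity)
              linarith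
            have e5 : (2 * (δ * n)) * (2 * L) = ε * n * L := by rw [hδ]; ring
            rw [e1]
            nlinarith
    clear_value s
    subst hm
    exact ⟨D, hcard, haps⟩

end Pool.Agent.L5helper45.CT
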